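import Pool.Agent.H62.SS.SepS
import Pool.Agent.H32.SV.Iso

set_option autoImplicit false

/-!
# [H62 SY DOMH] Convex domains with closure in the open hemisphere about the pole
-/

namespace Pool.Agent.H62.SY

open scoped RealInnerProductSpace MeasureTheory ENNReal NNReal
open MeasureTheory Set Metric
open Pool.Agent.H62.WS (E sg cst)
open Pool.Agent.H62.SS
open Pool.Agent.H32.SV (Hd)

variable {n : ℕ}

/-- open, nonempty, convex, the closure in the open hemisphere about the pole -/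
structure Dh (Ω : Set (Sp n)) : Prop where
  isOpen : IsOpen Ω
  nonempty : Ω.Nonempty
  conv : Convex ℝ (cn Ω)
  hemi : ∀ x ∈ closure Ω, 0 < ⟪(nor n : E (n + 1)), (x : E (n + 1))⟫

theorem Dh.hd {Ω : Set (Sp n)} (h : Dh Ω) : Hd Ω :=
  ⟨h.isOpen, h.nonempty, h.conv, (nor n : E (n + 1)), fun x hx => by
    rw [real_inner_comm]
    exact h.hemi x hx⟩

theorem Dh.seg_mem {Ω : Set (Sp n)} (h : Dh Ω) {p x : Sp n} (hp : p ∈ Ω)
    (hx : x ∈ closure Ω) {s t : ℝ} (hs : 0 < s) (ht : 0 ≤ t) :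
    s • (p : E (n + 1)) + t • (x : E (n + 1)) ∈ cn Ω :=
  h.hd.seg_mem hp hx hs ht

theorem Dh.body_closure {Ω : Set (Sp n)} (h : Dh Ω) : Body (closure Ω) := h.hd.body

theorem Dh.interior_closure {Ω : Set (Sp n)} (h : Dh Ω) : interior (closure Ω) = Ω :=
  h.hd.interior_closure

theorem Dh.frontier_closure {Ω : Set (Sp n)} (h : Dh Ω) :
    frontier (closure Ω) = frontier Ω := h.hd.frontier_closure

theorem bs_frontier_pos (hn : 2 ≤ n) {Ω : Set (Sp n)} (h : Dh Ω) : 0 < bs n (frontier Ω) :=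
  h.hd.bs_pos hn

theorem bs_frontier_lt_top (hn : 2 ≤ n) {Ω : Set (Sp n)} (h : Dh Ω) :
    bs n (frontier Ω) < ∞ := h.hd.bs_lt_top hn

theorem isoperimetric (hn : 2 ≤ n) {Ω : Set (Sp n)} (h : Dh Ω) {R : ℝ} (h0 : 0 < R)
    (h1 : R < Real.pi / 2) (hR : bs n (frontier Ω) = bs n (gsph (nor n) R)) :
    sg (n + 1) Ω ≤ sg (n + 1) (gball (nor n) R) :=
  Pool.Agent.H32.SV.iso_hd hn h.hd h0 h1 hR

theorem Dh.sep {Ω : Set (Sp n)} (h : Dh Ω) {x : Sp n} (hx : x ∉ Ω) :
    ∃ ν : Sp n, (∀ y ∈ Ω, ⟪(ν : E (n + 1)), (y : E (n + 1))⟫ < 0) ∧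
      0 ≤ ⟪(ν : E (n + 1)), (x : E (n + 1))⟫ := by
  have hx' : (x : E (n + 1)) ∉ cn Ω := fun h => hx (coe_mem_cn.1 h)
  obtain ⟨f, hf⟩ := geometric_hahn_banach_open_point h.conv (isOpen_cn h.isOpen) hx'
  let v := (InnerProductSpace.toDual ℝ (E (n + 1))).symm f
  have hv : ∀ a, ⟪v, a⟫ = f a := fun a => InnerProductSpace.toDual_symm_apply
  have h1 : ∀ a ∈ cn Ω, f a ≤ 0 := by
    intro a ha
    by_contra hcon
    push Not at hcon
    have h2 := hf _ (smul_mem_cn ha (t := |f x| / f a + 1) (by positivity))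
    rw [map_smul, smul_eq_mul, add_mul, div_mul_cancel₀ _ hcon.ne', one_mul] at h2
    linarith [le_abs_self (f x)]
  obtain ⟨q, hq⟩ := h.nonempty
  have hq' : (q : E (n + 1)) ∈ cn Ω := coe_mem_cn.2 hq
  have h2 : 0 ≤ f x := by
    by_contra hcon
    push Not at hcon
    have h3 := h1 _ hq'
    have h4 := hf _ (smul_mem_cn hq' (t := -(f x) / (1 - f q)) (div_pos (by linarith) (by linarith)))
    rw [map_smul, smul_eq_mul, div_mul_eq_mul_div, div_lt_iff₀ (by linarith)] at h4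
    nlinarith
  have hvne : v ≠ 0 := by
    intro h0
    have h3 := hf _ hq'
    rw [← hv, ← hv, h0, inner_zero_left, inner_zero_left] at h3
    exact lt_irrefl _ h3
  have hvpos := norm_pos_iff.2 hvne
  have h3 : ∀ a ∈ cn Ω, f a < 0 := by
    intro a ha
    rcases (h1 a ha).lt_or_eq with h4 | h4
    · exact h4
    exfalso
    have hc : Continuous (fun ε : ℝ => a + ε • v) := by fun_prop
    have h5 : ∀ᶠ ε in nhds (0 : ℝ), a + ε • v ∈ cn Ω := by
      have h6 : a + (0 : ℝ) • v ∈ cn Ω := by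
        rw [zero_smul, add_zero]
        exact ha
      exact (hc.tendsto 0).eventually ((isOpen_cn h.isOpen).mem_nhds h6)
    obtain ⟨δ, hδ, h6⟩ := Metric.eventually_nhds_iff.1 h5
    have h7 := h1 _ (h6 (y := δ / 2)
      (by rw [Real.dist_eq, sub_zero, abs_of_pos (by positivity)]; linarith))
    rw [map_add, map_smul, h4, ← hv v, real_inner_self_eq_norm_sq, smul_eq_mul, zero_add] at h7
    have : 0 < δ / 2 * ‖v‖ ^ 2 := by positivity
    linarith
  refine ⟨nrm v, ?_, ?_⟩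
  · intro y hy
    rw [coe_nrm hvne, real_inner_smul_left, hv]
    exact mul_neg_of_pos_of_neg (inv_pos.2 hvpos) (h3 _ (coe_mem_cn.2 hy))
  · rw [coe_nrm hvne, real_inner_smul_left, hv]
    exact mul_nonneg (inv_pos.2 hvpos).le h2

end Pool.Agent.H62.SY
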