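import Pool.Agent.H62.SY.Pole
import Pool.Agent.H32.SV.Hemi
import Pool.Agent.H62.SS.VolBall

set_option autoImplicit false

/-!
# [H62 SY SYMC] The centre of a symmetric domain
-/

namespace Pool.Agent.H62.SY

open scoped RealInnerProductSpace MeasureTheory ENNReal NNReal
open MeasureTheory Set Metric
open Pool.Agent.H62.WS (E sg cst)
open Pool.Agent.H62.SS
open Pool.Agent.H32.SV (Hd)

variable {n : ℕ}

theorem hd_sep {Ω : Set (Sp n)} (h : Hd Ω) {x : Sp n} (hx : x ∉ Ω) :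
    ∃ ν : Sp n, (∀ y ∈ Ω, ⟪(ν : E (n + 1)), (y : E (n + 1))⟫ < 0) ∧
      0 ≤ ⟪(ν : E (n + 1)), (x : E (n + 1))⟫ := by
  have hx' : (x : E (n + 1)) ∉ cn Ω := fun h => hx (coe_mem_cn.1 h)
  obtain ⟨f, hf⟩ := geometric_hahn_banach_open_point h.conv (isOpen_cn h.isOpen) hx'
  let v := (InnerProductSpace.toDual ℝ (E (n + 1))).symm f
  have hv : ∀ a, ⟪v, a⟫ = f a := fun a => InnerProductSpace.toDual_symm_apply
  have h1 : ∀ a ∈ cn Ω, f a ≤ 0 := by
    intro a ha
    by_contra hcon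
    push Not at hcon
    have h2 := hf _ (smul_mem_cn ha (t := |f x| / f a + 1) (by positivity))
    rw [map_smul, smul_eq_mul, add_mul, div_mul_cancel₀ _ hcon.ne', one_mul] at h2
    linarith [le_abs_self (f x)]
  obtain ⟨q, hq⟩ := h.nonempty
  have hq' : (q : E (n + 1)) ∈ cn Ω := coe_mem_cn.2 hq
  have h2 : 0 ≤ f x := by
    by_contra hcon
    push Not at hcon
    have h3 := h1 _ hq'
    have h4 := hf _ (smul_mem_cn hq' (t := -(f x) / (1 - f q)) (div_pos (by linarith) (by linarith)))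
    rw [map_smul, smul_eq_mul, div_mul_eq_mul_div, div_lt_iff₀ (by linarith)] at h4
    nlinarith
  have hvne : v ≠ 0 := by
    intro h0
    have h3 := hf _ hq'
    rw [← hv, ← hv, h0, inner_zero_left, inner_zero_left] at h3
    exact lt_irrefl _ h3
  have hvpos := norm_pos_iff.2 hvne
  have h3 : ∀ a ∈ cn Ω, f a < 0 := by
    intro a ha
    rcases (h1 a ha).lt_or_eq with h4 | h4
    · exact h4
    exfalso
    have hc : Continuous (fun ε : ℝ => a + ε • v) := by fun_prop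
    have h5 : ∀ᶠ ε in nhds (0 : ℝ), a + ε • v ∈ cn Ω := by
      have h6 : a + (0 : ℝ) • v ∈ cn Ω := by
        rw [zero_smul, add_zero]
        exact ha
      exact (hc.tendsto 0).eventually ((isOpen_cn h.isOpen).mem_nhds h6)
    obtain ⟨δ, hδ, h6⟩ := Metric.eventually_nhds_iff.1 h5
    have h7 := h1 _ (h6 (y := δ / 2)
      (by rw [Real.dist_eq, sub_zero, abs_of_pos (by positivity)]; linarith))
    rw [map_add, map_smul, h4, ← hv v, real_inner_self_eq_norm_sq, smul_eq_mul, zero_add] at h7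
    have : 0 < δ / 2 * ‖v‖ ^ 2 := by positivity
    linarith
  refine ⟨nrm v, ?_, ?_⟩
  · intro y hy
    rw [coe_nrm hvne, real_inner_smul_left, hv]
    exact mul_neg_of_pos_of_neg (inv_pos.2 hvpos) (h3 _ (coe_mem_cn.2 hy))
  · rw [coe_nrm hvne, real_inner_smul_left, hv]
    exact mul_nonneg (inv_pos.2 hvpos).le h2

theorem act_closure (Φ : E (n + 1) ≃ₗᵢ[ℝ] E (n + 1)) (A : Set (Sp n)) :
    act Φ '' closure A = closure (act Φ '' A) := by
  exact (act Φ).toHomeomorph.image_closure A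

/-- a nonpositive functional is negative on the open set -/
theorem hd_neg {Ω : Set (Sp n)} (h : Hd Ω) {ν : E (n + 1)} (hν0 : ν ≠ 0)
    (hν : ∀ y ∈ Ω, ⟪ν, (y : E (n + 1))⟫ ≤ 0) {y : Sp n} (hy : y ∈ Ω) :
    ⟪ν, (y : E (n + 1))⟫ < 0 := by
  rcases (hν y hy).lt_or_eq with h4 | h4
  · exact h4
  exfalso
  have h1 : ∀ a ∈ cn Ω, ⟪ν, a⟫ ≤ 0 := by
    rintro _ ⟨t, ht, z, hz, rfl⟩
    rw [real_inner_smul_right]
    exact mul_nonpos_of_nonneg_of_nonpos ht.le (hν z hz)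
  have hc : Continuous (fun ε : ℝ => (y : E (n + 1)) + ε • ν) := by fun_prop
  have h5 : ∀ᶠ ε in nhds (0 : ℝ), (y : E (n + 1)) + ε • ν ∈ cn Ω := by
    have h6 : (y : E (n + 1)) + (0 : ℝ) • ν ∈ cn Ω := by
      rw [zero_smul, add_zero]
      exact coe_mem_cn.2 hy
    exact (hc.tendsto 0).eventually ((isOpen_cn h.isOpen).mem_nhds h6)
  obtain ⟨δ, hδ, h6⟩ := Metric.eventually_nhds_iff.1 h5
  have h7 := h1 _ (h6 (y := δ / 2)
    (by rw [Real.dist_eq, sub_zero, abs_of_pos (by positivity)]; linarith))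
  rw [inner_add_right, real_inner_smul_right, h4, real_inner_self_eq_norm_sq, zero_add] at h7
  have : 0 < ‖ν‖ := norm_pos_iff.2 hν0
  have : 0 < δ / 2 * ‖ν‖ ^ 2 := by positivity
  linarith

/-- the centroid of a domain -/
theorem exists_centroid {Ω : Set (Sp n)} (h : Hd Ω)
    {G : Set (E (n + 1) ≃ₗᵢ[ℝ] E (n + 1))} (hG : ∀ Φ ∈ G, act Φ '' Ω = Ω) :
    ∃ c : E (n + 1), (∀ Φ ∈ G, Φ c = c) ∧
      ∀ v : E (n + 1), (∀ x ∈ Ω, ⟪v, (x : E (n + 1))⟫ < 0) → ⟪v, c⟫ < 0 := by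
  obtain ⟨c, hcG, hc⟩ := integral_vec (μ := sg (n + 1)) (A := Ω) (measure_lt_top _ _) (G := G)
    (fun Φ hΦ u => by rw [← setIntegral_sg_act, hG Φ hΦ]) (g := fun _ => 1)
    continuous_const (fun _ _ _ => rfl)
  refine ⟨c, hcG, fun v hv => ?_⟩
  have hpos : 0 < sg (n + 1) Ω := sg_pos_of_isOpen (n := n + 1) (by omega) h.isOpen h.nonempty
  have hfm : IsFiniteMeasure ((sg (n + 1)).restrict Ω) :=
    ⟨by rw [Measure.restrict_apply_univ]; exact measure_lt_top _ _⟩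
  have hi : IntegrableOn (fun x : Sp n => ⟪v, (x : E (n + 1))⟫) Ω (sg (n + 1)) :=
    (continuous_const.inner continuous_subtype_val).integrable_of_hasCompactSupport
      (HasCompactSupport.of_compactSpace _)
  have h4 : 0 < ∫ x in Ω, -⟪v, (x : E (n + 1))⟫ ∂sg (n + 1) := by
    rw [setIntegral_pos_iff_support_of_nonneg_ae
      (ae_restrict_of_forall_mem h.isOpen.measurableSet fun x hx =>
        (neg_pos.2 (hv x hx)).le) hi.neg]
    refine hpos.trans_le (measure_mono fun x hx => ⟨?_, hx⟩)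
    exact (neg_pos.2 (hv x hx)).ne'
  have h5 := hc v
  simp only [one_mul] at h5
  rw [integral_neg, h5] at h4
  linarith

/-- there is a point of the domain that is fixed by the isometries -/
theorem exists_fixed_point {Ω : Set (Sp n)} (h : Hd Ω)
    {G : Set (E (n + 1) ≃ₗᵢ[ℝ] E (n + 1))} (hG : ∀ Φ ∈ G, act Φ '' Ω = Ω) :
    ∃ q ∈ Ω, ∀ Φ ∈ G, Φ (q : E (n + 1)) = q := by
  obtain ⟨c, hcG, hc⟩ := exists_centroid h hG
  have hc0 : c ≠ 0 := by
    rintro rfl
    obtain ⟨w, hw⟩ := h.pole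
    have := hc (-w) (fun x hx => by
      rw [inner_neg_left, real_inner_comm]
      exact neg_neg_of_pos (hw x (subset_closure hx)))
    rw [inner_zero_right] at this
    exact lt_irrefl _ this
  have hcp : 0 < ‖c‖ := norm_pos_iff.2 hc0
  have hqc : ((nrm c : Sp n) : E (n + 1)) = ‖c‖⁻¹ • c := by rw [coe_nrm hc0]
  refine ⟨nrm c, ?_, fun Φ hΦ => by rw [hqc, map_smul, hcG Φ hΦ]⟩
  by_contra hqΩ
  obtain ⟨ν, hν1, hν2⟩ := hd_sep h hqΩ
  have h1 := hc ν hν1
  rw [hqc, real_inner_smul_right] at hν2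
  have := mul_neg_of_pos_of_neg (inv_pos.2 hcp) h1
  linarith

/-- if the fixed vectors lie on a line, the closure is in the open hemisphere about each fixed point of the domain -/
theorem hemi_of_line {Ω : Set (Sp n)} (h : Hd Ω)
    {G : Set (E (n + 1) ≃ₗᵢ[ℝ] E (n + 1))} (hG : ∀ Φ ∈ G, act Φ '' Ω = Ω) {o : E (n + 1)}
    (ho : ∀ v : E (n + 1), (∀ Φ ∈ G, Φ v = v) → ∃ t : ℝ, v = t • o) {q : Sp n} (hq : q ∈ Ω)
    (hqG : ∀ Φ ∈ G, Φ (q : E (n + 1)) = q) {x : Sp n} (hx : x ∈ closure Ω) :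
    0 < ⟪(q : E (n + 1)), (x : E (n + 1))⟫ := by
  have hcl : ∀ Φ ∈ G, ∀ x ∈ closure Ω, act Φ x ∈ closure Ω := by
    intro Φ hΦ x hx
    have h1 : act Φ x ∈ act Φ '' closure Ω := mem_image_of_mem _ hx
    rw [act_closure, hG Φ hΦ] at h1
    exact h1
  obtain ⟨w, hw, hwG⟩ := exists_fixed_pole (isClosed_closure.isCompact : IsCompact (closure Ω))
    h.nonempty.closure (by
      obtain ⟨w, hw⟩ := h.pole
      exact ⟨w, fun x hx => by rw [real_inner_comm]; exact hw x hx⟩) hcl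
  obtain ⟨lam, hlam⟩ := ho w hwG
  obtain ⟨mu, hmu⟩ := ho q hqG
  have hmu0 : mu ≠ 0 := by
    rintro rfl
    rw [zero_smul] at hmu
    exact coe_ne_zero q hmu
  have hwq : w = (lam * mu⁻¹) • (q : E (n + 1)) := by
    rw [hmu, smul_smul, mul_assoc, inv_mul_cancel₀ hmu0, mul_one, hlam]
  have h1 := hw q (subset_closure hq)
  rw [hwq, real_inner_smul_left, real_inner_self_eq_norm_sq, norm_coe, one_pow, mul_one] at h1
  have h2 := hw x hx
  rw [hwq, real_inner_smul_left] at h2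
  exact (mul_pos_iff_of_pos_left h1).1 h2

end Pool.Agent.H62.SY
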