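import Pool.Agent.H62.SS.SidePos
import Pool.Agent.H62.SS.CentS
import Pool.Agent.H62.SY.RhoS
import Pool.Agent.H62.SY.SymC

set_option autoImplicit false

/-!
# [H62 SY CENTG] The centre of a domain with symmetries
-/

namespace Pool.Agent.H62.SY

open scoped RealInnerProductSpace MeasureTheory ENNReal NNReal
open MeasureTheory Set Metric
open Pool.Agent.H62.WS (E sg cst)
open Pool.Agent.H62.SS
open Pool.Agent.H32.SV (Hd)

variable {n : ℕ}

/-- the centre `q` moved to the pole -/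
theorem dh_move {Ω : Set (Sp n)} (h : Hd Ω) {q : Sp n}
    (hq : ∀ x ∈ closure Ω, 0 < ⟪(q : E (n + 1)), (x : E (n + 1))⟫)
    {Φ : E (n + 1) ≃ₗᵢ[ℝ] E (n + 1)} (hΦ : act Φ q = nor n) : Dh (act Φ '' Ω) where
  isOpen := (act Φ).toHomeomorph.isOpenMap _ h.isOpen
  nonempty := h.nonempty.image _
  conv := by
    rw [cn_act]
    exact h.conv.linear_image _
  hemi := by
    rw [← act_closure]
    rintro _ ⟨x, hx, rfl⟩
    rw [← hΦ, inner_act]
    exact hq x hx

/-- a closed half of the equator has positive measure -/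
private theorem sg_half_pos (hn : 2 ≤ n) (w : E n) :
    0 < sg n {θ : sphere (0 : E n) 1 | ⟪w, (θ : E n)⟫ ≤ 0} := by
  obtain ⟨m, rfl⟩ : ∃ m, n = m + 1 := ⟨n - 1, by omega⟩
  by_contra h0
  rw [not_lt, nonpos_iff_eq_zero] at h0
  have h1 : sg (m + 1) (act (LinearIsometryEquiv.neg ℝ) ''
      {θ : Sp m | ⟪w, (θ : E (m + 1))⟫ ≤ 0}) = 0 := by
    rw [sg_act_image]
    exact h0
  have h2 : (univ : Set (Sp m)) ⊆ {θ : Sp m | ⟪w, (θ : E (m + 1))⟫ ≤ 0} ∪
      act (LinearIsometryEquiv.neg ℝ) '' {θ : Sp m | ⟪w, (θ : E (m + 1))⟫ ≤ 0} := by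
    intro θ _
    rcases le_total ⟪w, (θ : E (m + 1))⟫ 0 with h | h
    · exact Or.inl h
    · right
      refine ⟨act (LinearIsometryEquiv.neg ℝ) θ, ?_, ?_⟩
      · have h3 : (act (LinearIsometryEquiv.neg ℝ) θ : E (m + 1)) = -(θ : E (m + 1)) := rfl
        rw [mem_setOf_eq, h3, inner_neg_right]
        linarith
      · ext1
        exact neg_neg (θ : E (m + 1))
  have h3 := (measure_mono (μ := sg (m + 1)) h2).trans (measure_union_le _ _)
  rw [h1, add_zero] at h3
  have h4 := WS.sg_univ_pos hn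
  rw [h0] at h3
  exact absurd (h4.trans_le h3) (lt_irrefl _)

private theorem side_core (hn : 2 ≤ n) {Ω : Set (Sp n)} (h : Dh Ω) (ho : nor n ∈ Ω) {ν : Sp n}
    (hν : ⟪(ν : E (n + 1)), e0 n⟫ < 0) :
    0 < bs n (frontier Ω ∩ {x | ⟪(ν : E (n + 1)), (x : E (n + 1))⟫ < 0}) := by
  obtain ⟨D, hD⟩ : ∃ D : Set (sphere (0 : E n) 1),
      D = {θ : sphere (0 : E n) 1 | ⟪(ν : E (n + 1)), inc n (θ : E n)⟫ ≤ 0} := ⟨_, rfl⟩
  have hDm : MeasurableSet D := by
    rw [hD]
    exact (isClosed_le (by fun_prop) continuous_const).measurableSet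
  have hDpos : 0 < sg n D := by
    have h1 := sg_half_pos hn (dn n (ν : E (n + 1)))
    have h2 : D = {θ : sphere (0 : E n) 1 | ⟪dn n (ν : E (n + 1)), (θ : E n)⟫ ≤ 0} := by
      rw [hD]
      ext θ
      rw [mem_setOf_eq, mem_setOf_eq, inner_eq, inc_zero_apply, mul_zero, zero_add]
      rfl
    rw [h2]
    exact h1
  have hU : D ⊆ ⋃ k : ℕ, D ∩ {θ | 1 / ((k : ℝ) + 1) < rho Ω θ} := by
    intro θ hθ
    obtain ⟨k, hk⟩ := exists_nat_one_div_lt (rho_pos h ho θ)
    exact mem_iUnion.2 ⟨k, hθ, hk⟩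
  have hex : ∃ k : ℕ, sg n (D ∩ {θ | 1 / ((k : ℝ) + 1) < rho Ω θ}) ≠ 0 := by
    by_contra hc
    push Not at hc
    have h1 := measure_iUnion_null (μ := sg n) hc
    exact hDpos.ne' (measure_mono_null hU h1)
  obtain ⟨k, hk⟩ := hex
  have hk0 : (0 : ℝ) < 1 / ((k : ℝ) + 1) := by positivity
  have hk1 : 1 / ((k : ℝ) + 1) ≤ 1 := by
    rw [div_le_one (by positivity)]
    linarith [Nat.cast_nonneg (α := ℝ) k]
  have hpi : (1 : ℝ) ≤ Real.pi / 2 := by linarith [Real.pi_gt_three]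
  have h1 := outer_meas hn hk0 (hk1.trans hpi) (D := D ∩ {θ | 1 / ((k : ℝ) + 1) < rho Ω θ})
    (hDm.inter (measurableSet_lt measurable_const (measurable_rho h ho)))
    (frontier Ω ∩ {x | ⟪(ν : E (n + 1)), (x : E (n + 1))⟫ < 0}) (by
      rintro θ ⟨hθ, hθ2⟩
      refine ⟨rho Ω θ, le_of_lt hθ2, (rho_lt h ho θ).le, pol_rho_mem_frontier h ho θ, ?_⟩
      have h2 : ((pol (rho Ω θ) θ : Sp n) : E (n + 1)) =
          Real.cos (rho Ω θ) • e0 n + Real.sin (rho Ω θ) • inc n (θ : E n) := rfl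
      rw [mem_setOf_eq, h2, inner_add_right, inner_smul_right, inner_smul_right]
      rw [hD, mem_setOf_eq] at hθ
      have h3 : 0 < Real.cos (rho Ω θ) := Real.cos_pos_of_mem_Ioo
        ⟨by linarith [rho_pos h ho θ, Real.pi_pos], rho_lt h ho θ⟩
      have h4 : 0 < Real.sin (rho Ω θ) := Real.sin_pos_of_pos_of_lt_pi (rho_pos h ho θ)
        (by linarith [rho_lt h ho θ, Real.pi_pos])
      nlinarith [mul_neg_of_pos_of_neg h3 hν, mul_nonneg h4.le (neg_nonneg.2 hθ)])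
  refine lt_of_lt_of_le ?_ (h1.trans (measure_mono inter_subset_left))
  have h5 : 0 < Real.sin (1 / ((k : ℝ) + 1)) := Real.sin_pos_of_pos_of_lt_pi hk0
    (by linarith [Real.pi_gt_three])
  have h6 : ENNReal.ofReal (Real.sin (1 / ((k : ℝ) + 1)) ^ (n - 1)) ≠ 0 := by
    rw [Ne, ENNReal.ofReal_eq_zero, not_le]
    positivity
  exact pos_iff_ne_zero.2 (mul_ne_zero h6 (mul_ne_zero (WS.cst_ne_zero hn) hk))

theorem hd_side_pos (hn : 2 ≤ n) {Ω : Set (Sp n)} (h : Hd Ω) {p : Sp n} (hp : p ∈ Ω)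
    (hq : ∀ x ∈ closure Ω, 0 < ⟪(p : E (n + 1)), (x : E (n + 1))⟫) {ν : Sp n}
    (hν : ∀ y ∈ Ω, ⟪(ν : E (n + 1)), (y : E (n + 1))⟫ < 0) :
    0 < bs n (frontier Ω ∩ {x | ⟪(ν : E (n + 1)), (x : E (n + 1))⟫ < 0}) := by
  obtain ⟨Φ, hΦ⟩ := exists_act p (nor n)
  have h1 := side_core hn (dh_move h hq hΦ) (by rw [← hΦ]; exact ⟨p, hp, rfl⟩) (ν := act Φ ν) (by
    have h2 : ((nor n : Sp n) : E (n + 1)) = e0 n := rfl
    rw [← h2, ← hΦ, inner_act]
    exact hν p hp)
  have h2 : frontier (act Φ '' Ω) ∩ {x | ⟪(act Φ ν : E (n + 1)), (x : E (n + 1))⟫ < 0} =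
      act Φ '' (frontier Ω ∩ {x | ⟪(ν : E (n + 1)), (x : E (n + 1))⟫ < 0}) := by
    rw [← act_frontier]
    ext x
    constructor
    · rintro ⟨⟨y, hy, rfl⟩, hx⟩
      rw [mem_setOf_eq, inner_act] at hx
      exact ⟨y, ⟨hy, hx⟩, rfl⟩
    · rintro ⟨y, ⟨hy, hx⟩, rfl⟩
      refine ⟨⟨y, hy, rfl⟩, ?_⟩
      rw [mem_setOf_eq, inner_act]
      exact hx
  rw [h2, bs_act_image] at h1
  exact h1

private theorem Gp_continuous {H : ℝ → ℝ} (hH : ContDiff ℝ 1 H) : Continuous (Gp H) := by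
  have h : ∀ y, HasDerivAt (Gp H) (-H y) y := fun y =>
    (hH.continuous.integral_hasStrictDerivAt 0 y).hasDerivAt.neg
  exact continuous_iff_continuousAt.2 fun y => (h y).continuousAt

private theorem Gp_inner_mem (a x : Sp n) : ⟪(a : E (n + 1)), (x : E (n + 1))⟫ ∈ Icc (-1 : ℝ) 1 := by
  have h := abs_real_inner_le_norm (a : E (n + 1)) (x : E (n + 1))
  rw [norm_coe, norm_coe, one_mul] at h
  exact ⟨(abs_le.1 h).1, (abs_le.1 h).2⟩

private theorem Gp_bound {H : ℝ → ℝ} (hH : ContDiff ℝ 1 H) :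
    ∃ C : ℝ, ∀ a x : Sp n, ‖Gp H ⟪(a : E (n + 1)), (x : E (n + 1))⟫‖ ≤ C := by
  obtain ⟨C, hC⟩ := (isCompact_Icc (a := (-1 : ℝ)) (b := 1)).exists_bound_of_continuousOn
    (Gp_continuous hH).continuousOn
  exact ⟨C, fun a x => hC _ (Gp_inner_mem a x)⟩

private theorem Gp_cont_right {H : ℝ → ℝ} (hH : ContDiff ℝ 1 H) (a : Sp n) :
    Continuous fun x : Sp n => Gp H ⟪(a : E (n + 1)), (x : E (n + 1))⟫ :=
  (Gp_continuous hH).comp (by fun_prop)

private theorem Gp_cont_left {H : ℝ → ℝ} (hH : ContDiff ℝ 1 H) (x : Sp n) :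
    Continuous fun a : Sp n => Gp H ⟪(a : E (n + 1)), (x : E (n + 1))⟫ :=
  (Gp_continuous hH).comp (by fun_prop)

theorem exists_min_on {H : ℝ → ℝ} (hH : ContDiff ℝ 1 H) {K : Set (Sp n)} (hK : bs n K < ∞)
    {V : Set (Sp n)} (hV : IsClosed V) (hVne : V.Nonempty) :
    ∃ o ∈ V, ∀ a ∈ V, ∫ x in K, Gp H ⟪(o : E (n + 1)), (x : E (n + 1))⟫ ∂bs n ≤
      ∫ x in K, Gp H ⟪(a : E (n + 1)), (x : E (n + 1))⟫ ∂bs n := by
  obtain ⟨C, hC⟩ := Gp_bound (n := n) hH
  haveI : IsFiniteMeasure ((bs n).restrict K) := ⟨by rwa [Measure.restrict_apply_univ]⟩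
  have hc : Continuous fun a : Sp n => ∫ x in K, Gp H ⟪(a : E (n + 1)), (x : E (n + 1))⟫ ∂bs n := by
    apply continuous_of_dominated (bound := fun _ => C)
    · intro a
      exact (Gp_cont_right hH a).aestronglyMeasurable
    · intro a
      exact Filter.Eventually.of_forall fun x => hC a x
    · exact integrable_const C
    · exact Filter.Eventually.of_forall fun x => Gp_cont_left hH x
  obtain ⟨o, hoV, ho⟩ := hV.isCompact.exists_isMinOn hVne hc.continuousOn
  exact ⟨o, hoV, fun a ha => ho ha⟩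

theorem center_unit_on {H : ℝ → ℝ} (hH : ContDiff ℝ 1 H) {K : Set (Sp n)} (hK : bs n K < ∞)
    {V : Set (Sp n)} {o : Sp n} (ho : ∀ a ∈ V, ∫ x in K, Gp H ⟪(o : E (n + 1)), (x : E (n + 1))⟫ ∂bs n ≤
      ∫ x in K, Gp H ⟪(a : E (n + 1)), (x : E (n + 1))⟫ ∂bs n)
    {v : Sp n} (hv : ⟪(o : E (n + 1)), (v : E (n + 1))⟫ = 0)
    (hV : ∀ (t : ℝ) (a : Sp n), (a : E (n + 1)) =
      Real.cos t • (o : E (n + 1)) + Real.sin t • (v : E (n + 1)) → a ∈ V) :
    ∫ x in K, H ⟪(o : E (n + 1)), (x : E (n + 1))⟫ * ⟪(v : E (n + 1)), (x : E (n + 1))⟫ ∂bs n =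
      0 := by
  have hfin : IsFiniteMeasure ((bs n).restrict K) := ⟨by rwa [Measure.restrict_apply_univ]⟩
  have hG : Continuous (Gp H) :=
    continuous_iff_continuousAt.2 fun y => (hasDerivAt_Gp hH y).continuousAt
  have hco : Continuous (fun x : Sp n => ⟪(o : E (n + 1)), (x : E (n + 1))⟫) :=
    continuous_const.inner continuous_subtype_val
  have hcv : Continuous (fun x : Sp n => ⟪(v : E (n + 1)), (x : E (n + 1))⟫) :=
    continuous_const.inner continuous_subtype_val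
  obtain ⟨C, hC⟩ := (isCompact_Icc (a := (-2 : ℝ)) (b := 2)).exists_bound_of_continuousOn
    hH.continuous.continuousOn
  have hC0 : 0 ≤ C := (norm_nonneg _).trans (hC 0 ⟨by norm_num, by norm_num⟩)
  let F : ℝ → Sp n → ℝ := fun t x => Gp H (Real.cos t * ⟪(o : E (n + 1)), (x : E (n + 1))⟫ +
    Real.sin t * ⟪(v : E (n + 1)), (x : E (n + 1))⟫)
  let F' : ℝ → Sp n → ℝ := fun t x =>
    -H (Real.cos t * ⟪(o : E (n + 1)), (x : E (n + 1))⟫ +
      Real.sin t * ⟪(v : E (n + 1)), (x : E (n + 1))⟫) *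
      (-Real.sin t * ⟪(o : E (n + 1)), (x : E (n + 1))⟫ +
        Real.cos t * ⟪(v : E (n + 1)), (x : E (n + 1))⟫)
  have hFc : ∀ t, Continuous (F t) := fun t =>
    hG.comp ((continuous_const.mul hco).add (continuous_const.mul hcv))
  have hF'c : ∀ t, Continuous (F' t) := fun t =>
    (hH.continuous.comp ((continuous_const.mul hco).add (continuous_const.mul hcv))).neg.mul
      ((continuous_const.mul hco).add (continuous_const.mul hcv))
  have hd : ∀ (x : Sp n) (t : ℝ), HasDerivAt (fun t => F t x) (F' t x) t := by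
    intro x t
    have h1 : HasDerivAt (fun t : ℝ => Real.cos t * ⟪(o : E (n + 1)), (x : E (n + 1))⟫ +
        Real.sin t * ⟪(v : E (n + 1)), (x : E (n + 1))⟫)
        (-Real.sin t * ⟪(o : E (n + 1)), (x : E (n + 1))⟫ +
        Real.cos t * ⟪(v : E (n + 1)), (x : E (n + 1))⟫) t :=
      ((Real.hasDerivAt_cos t).mul_const _).fun_add ((Real.hasDerivAt_sin t).mul_const _)
    exact (hasDerivAt_Gp hH _).comp t h1
  have hb : ∀ (x : Sp n) (t : ℝ), ‖F' t x‖ ≤ C * 2 := by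
    intro x t
    have h1 := inner_mem_Icc o x
    have h2 := inner_mem_Icc v x
    have a1 : |Real.cos t * ⟪(o : E (n + 1)), (x : E (n + 1))⟫| ≤ 1 := by
      rw [abs_mul]
      exact mul_le_one₀ (Real.abs_cos_le_one t) (abs_nonneg _) (abs_le.2 ⟨h1.1, h1.2⟩)
    have a2 : |Real.sin t * ⟪(v : E (n + 1)), (x : E (n + 1))⟫| ≤ 1 := by
      rw [abs_mul]
      exact mul_le_one₀ (Real.abs_sin_le_one t) (abs_nonneg _) (abs_le.2 ⟨h2.1, h2.2⟩)
    have a3 : |-Real.sin t * ⟪(o : E (n + 1)), (x : E (n + 1))⟫| ≤ 1 := by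
      rw [abs_mul, abs_neg]
      exact mul_le_one₀ (Real.abs_sin_le_one t) (abs_nonneg _) (abs_le.2 ⟨h1.1, h1.2⟩)
    have a4 : |Real.cos t * ⟪(v : E (n + 1)), (x : E (n + 1))⟫| ≤ 1 := by
      rw [abs_mul]
      exact mul_le_one₀ (Real.abs_cos_le_one t) (abs_nonneg _) (abs_le.2 ⟨h2.1, h2.2⟩)
    rw [abs_le] at a1 a2 a3 a4
    have h3 := hC (Real.cos t * ⟪(o : E (n + 1)), (x : E (n + 1))⟫ +
      Real.sin t * ⟪(v : E (n + 1)), (x : E (n + 1))⟫) ⟨by linarith, by linarith⟩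
    simp only [F']
    rw [norm_mul, norm_neg]
    refine mul_le_mul h3 ?_ (norm_nonneg _) hC0
    rw [Real.norm_eq_abs, abs_le]
    constructor <;> linarith
  have hint : Integrable (F 0) ((bs n).restrict K) :=
    (hFc 0).integrable_of_hasCompactSupport (HasCompactSupport.of_compactSpace _)
  have key := (hasDerivAt_integral_of_dominated_loc_of_deriv_le (μ := (bs n).restrict K)
    (F := F) (F' := F') (x₀ := 0) (s := univ) (bound := fun _ => C * 2) Filter.univ_mem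
    (Filter.Eventually.of_forall fun t => (hFc t).aestronglyMeasurable) hint
    (hF'c 0).aestronglyMeasurable
    (Filter.Eventually.of_forall fun x t _ => hb x t) (integrable_const _)
    (Filter.Eventually.of_forall fun x t _ => hd x t)).2
  have hmin : IsLocalMin (fun t => ∫ x, F t x ∂((bs n).restrict K)) 0 := by
    refine Filter.Eventually.of_forall fun t => ?_
    have h1 := ho ⟨Real.cos t • (o : E (n + 1)) + Real.sin t • (v : E (n + 1)), by
      rw [mem_sphere_zero_iff_norm]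
      exact norm_rot hv t⟩ (hV t _ rfl)
    have h2 : ∫ x, F 0 x ∂((bs n).restrict K) =
        ∫ x in K, Gp H ⟪(o : E (n + 1)), (x : E (n + 1))⟫ ∂bs n := by
      congr 1
      funext x
      simp only [F, Real.cos_zero, Real.sin_zero, one_mul, zero_mul, add_zero]
    have h3 : ∫ x, F t x ∂((bs n).restrict K) =
        ∫ x in K, Gp H ⟪Real.cos t • (o : E (n + 1)) + Real.sin t • (v : E (n + 1)),
          (x : E (n + 1))⟫ ∂bs n := by
      congr 1
      funext x
      simp only [F, inner_add_left, real_inner_smul_left]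
    simp only
    rw [h2, h3]
    exact h1
  have h0 := hmin.hasDerivAt_eq_zero key
  have h4 : ∫ x in K, H ⟪(o : E (n + 1)), (x : E (n + 1))⟫ *
      ⟪(v : E (n + 1)), (x : E (n + 1))⟫ ∂bs n = -∫ x, F' 0 x ∂((bs n).restrict K) := by
    rw [← integral_neg]
    congr 1
    funext x
    simp only [F', Real.cos_zero, Real.sin_zero, one_mul, zero_mul, add_zero, neg_zero, zero_add]
    ring
  rw [h4, h0, neg_zero]

/-- the centre of a domain with symmetries -/
theorem exists_center_G (hn : 2 ≤ n) {Ω : Set (Sp n)} (h : Hd Ω)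
    {G : Set (E (n + 1) ≃ₗᵢ[ℝ] E (n + 1))} (hG : ∀ Φ ∈ G, act Φ '' Ω = Ω)
    (hq : ∀ q ∈ Ω, (∀ Φ ∈ G, Φ (q : E (n + 1)) = q) → ∀ x ∈ closure Ω,
      0 < ⟪(q : E (n + 1)), (x : E (n + 1))⟫) {H : ℝ → ℝ}
    (hH : ContDiff ℝ 1 H) (hp : ∀ c ∈ Icc (-1 : ℝ) 1, 0 < H c) :
    ∃ o ∈ Ω, (∀ Φ ∈ G, Φ (o : E (n + 1)) = o) ∧ ∀ v : E (n + 1), ⟪(o : E (n + 1)), v⟫ = 0 →
      ∫ x in frontier Ω, H ⟪(o : E (n + 1)), (x : E (n + 1))⟫ * ⟪v, (x : E (n + 1))⟫ ∂bs n =
        0 := by
  have hfin := h.bs_lt_top hn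
  obtain ⟨p, hpΩ, hpG⟩ := exists_fixed_point h hG
  obtain ⟨V, hV⟩ : ∃ V : Set (Sp n), V = {a : Sp n | ∀ Φ ∈ G, Φ (a : E (n + 1)) = (a : E (n + 1))} := ⟨_, rfl⟩
  have hVc : IsClosed V := by
    have : V = ⋂ Φ ∈ G, {a : Sp n | Φ (a : E (n + 1)) = (a : E (n + 1))} := by
      rw [hV]
      ext a
      simp
    rw [this]
    exact isClosed_biInter fun Φ _ =>
      isClosed_eq (Φ.continuous.comp continuous_subtype_val) continuous_subtype_val
  obtain ⟨o, hoV, ho⟩ := exists_min_on hH hfin hVc ⟨p, by rw [hV]; exact hpG⟩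
  have hoG : ∀ Φ ∈ G, Φ (o : E (n + 1)) = o := by
    rw [hV] at hoV
    exact hoV
  have hstat : ∀ v : Sp n, (∀ Φ ∈ G, Φ (v : E (n + 1)) = v) →
      ⟪(o : E (n + 1)), (v : E (n + 1))⟫ = 0 →
      ∫ x in frontier Ω, H ⟪(o : E (n + 1)), (x : E (n + 1))⟫ *
        ⟪(v : E (n + 1)), (x : E (n + 1))⟫ ∂bs n = 0 := by
    intro v hvG hv
    refine center_unit_on hH hfin ho hv fun t a ha => ?_
    rw [hV, mem_setOf_eq]
    intro Φ hΦ
    rw [ha, map_add, map_smul, map_smul, hoG Φ hΦ, hvG Φ hΦ]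
  refine ⟨o, ?_, hoG, ?_⟩
  · by_contra hoΩ
    obtain ⟨ν₀, hν01, hν02⟩ := hd_sep h hoΩ
    obtain ⟨c, hcG, hc⟩ := exists_centroid h hG
    have hc1 := hc ν₀ hν01
    -- a fixed separating vector
    obtain ⟨ν₁, ⟨hν11, hν12, hν13⟩, hν1G⟩ := exists_fixed_mem
      (P := {ν : E (n + 1) | (∀ y ∈ Ω, ⟪ν, (y : E (n + 1))⟫ ≤ 0) ∧ 0 ≤ ⟪ν, (o : E (n + 1))⟫ ∧
        ⟪ν, c⟫ ≤ -1}) (G := G) (by
        have hcp : 0 < -⟪(ν₀ : E (n + 1)), c⟫ := by linarith
        refine ⟨(-⟪(ν₀ : E (n + 1)), c⟫)⁻¹ • (ν₀ : E (n + 1)), fun y hy => ?_, ?_, ?_⟩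
        · rw [real_inner_smul_left]
          exact mul_nonpos_of_nonneg_of_nonpos (inv_pos.2 hcp).le (hν01 y hy).le
        · rw [real_inner_smul_left]
          exact mul_nonneg (inv_pos.2 hcp).le hν02
        · rw [real_inner_smul_left]
          have h9 : (-⟪(ν₀ : E (n + 1)), c⟫)⁻¹ * ⟪(ν₀ : E (n + 1)), c⟫ = -1 := by
            rw [inv_neg, neg_mul, inv_mul_cancel₀ hc1.ne]
          rw [h9]) (by
        have e : {ν : E (n + 1) | (∀ y ∈ Ω, ⟪ν, (y : E (n + 1))⟫ ≤ 0) ∧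
            0 ≤ ⟪ν, (o : E (n + 1))⟫ ∧ ⟪ν, c⟫ ≤ -1} =
            (⋂ y ∈ Ω, {ν : E (n + 1) | ⟪ν, (y : E (n + 1))⟫ ≤ 0}) ∩
              ({ν : E (n + 1) | 0 ≤ ⟪ν, (o : E (n + 1))⟫} ∩ {ν : E (n + 1) | ⟪ν, c⟫ ≤ -1}) := by
          ext ν
          simp
        rw [e]
        refine (isClosed_biInter fun y _ =>
          isClosed_le (continuous_id.inner continuous_const) continuous_const).inter
          ((isClosed_le continuous_const (continuous_id.inner continuous_const)).inter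
          (isClosed_le (continuous_id.inner continuous_const) continuous_const))) (by
        rintro a ⟨ha1, ha2, ha3⟩ b ⟨hb1, hb2, hb3⟩ s t hs ht hst
        refine ⟨fun y hy => ?_, ?_, ?_⟩
        · rw [inner_add_left, real_inner_smul_left, real_inner_smul_left]
          nlinarith [mul_nonneg hs (neg_nonneg.2 (ha1 y hy)), mul_nonneg ht (neg_nonneg.2 (hb1 y hy))]
        · rw [inner_add_left, real_inner_smul_left, real_inner_smul_left]
          positivity
        · rw [inner_add_left, real_inner_smul_left, real_inner_smul_left]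
          nlinarith) (by
        rintro Φ hΦ v ⟨hv1, hv2, hv3⟩
        refine ⟨fun y hy => ?_, ?_, ?_⟩
        · rw [inner_symm]
          have : act Φ y ∈ Ω := by
            rw [← hG Φ hΦ]
            exact mem_image_of_mem _ hy
          exact hv1 _ this
        · rw [inner_symm, hoG Φ hΦ]
          exact hv2
        · rw [inner_symm, hcG Φ hΦ]
          exact hv3)
    have hν10 : ν₁ ≠ 0 := by
      rintro rfl
      rw [inner_zero_left] at hν13
      linarith
    have hνp : 0 < ‖ν₁‖ := norm_pos_iff.2 hν10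
    obtain ⟨ν, hνe⟩ : ∃ ν : Sp n, ν = nrm ν₁ := ⟨_, rfl⟩
    have hνc : (ν : E (n + 1)) = ‖ν₁‖⁻¹ • ν₁ := by rw [hνe, coe_nrm hν10]
    have hνG : ∀ Φ ∈ G, Φ (ν : E (n + 1)) = ν := fun Φ hΦ => by
      rw [hνc, map_smul, hν1G Φ hΦ]
    have hν1 : ∀ y ∈ Ω, ⟪(ν : E (n + 1)), (y : E (n + 1))⟫ < 0 := fun y hy => by
      rw [hνc, real_inner_smul_left]
      exact mul_neg_of_pos_of_neg (inv_pos.2 hνp) (hd_neg h hν10 hν11 hy)
    have hν2 : 0 ≤ ⟪(ν : E (n + 1)), (o : E (n + 1))⟫ := by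
      rw [hνc, real_inner_smul_left]
      exact mul_nonneg (inv_pos.2 hνp).le hν12
    have hside := hd_side_pos hn h hpΩ (hq p hpΩ hpG) hν1
    have hcν : Continuous (fun x : Sp n => ⟪(ν : E (n + 1)), (x : E (n + 1))⟫) :=
      continuous_const.inner continuous_subtype_val
    have hνf : ∀ x ∈ frontier Ω, ⟪(ν : E (n + 1)), (x : E (n + 1))⟫ ≤ 0 := by
      intro x hx
      have h1 : closure Ω ⊆ {x | ⟪(ν : E (n + 1)), (x : E (n + 1))⟫ ≤ 0} :=
        closure_minimal (fun y hy => (hν1 y hy).le) (isClosed_le hcν continuous_const)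
      exact h1 (frontier_subset_closure hx)
    rcases hν2.eq_or_lt with h0 | h0
    · -- the centre is on the boundary of the half space
      have h1 := hstat ν hνG (by
        rw [real_inner_comm]
        exact h0.symm)
      have hf0 : ∀ x ∈ frontier Ω, 0 ≤ -(H ⟪(o : E (n + 1)), (x : E (n + 1))⟫ *
          ⟪(ν : E (n + 1)), (x : E (n + 1))⟫) := by
        intro x hx
        have h2 := hp _ (inner_mem_Icc o x)
        have h3 := hνf x hx
        nlinarith
      have hint : IntegrableOn (fun x : Sp n => -(H ⟪(o : E (n + 1)), (x : E (n + 1))⟫ *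
          ⟪(ν : E (n + 1)), (x : E (n + 1))⟫)) (frontier Ω) (bs n) := by
        have hfm : IsFiniteMeasure ((bs n).restrict (frontier Ω)) :=
          ⟨by rw [Measure.restrict_apply_univ]; exact hfin⟩
        have hc : Continuous (fun x : Sp n => -(H ⟪(o : E (n + 1)), (x : E (n + 1))⟫ *
            ⟪(ν : E (n + 1)), (x : E (n + 1))⟫)) :=
          ((hH.continuous.comp (continuous_const.inner continuous_subtype_val)).mul hcν).neg
        exact hc.integrable_of_hasCompactSupport (HasCompactSupport.of_compactSpace _)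
      have h4 : 0 < ∫ x in frontier Ω, -(H ⟪(o : E (n + 1)), (x : E (n + 1))⟫ *
          ⟪(ν : E (n + 1)), (x : E (n + 1))⟫) ∂bs n := by
        rw [setIntegral_pos_iff_support_of_nonneg_ae
          (ae_restrict_of_forall_mem isClosed_frontier.measurableSet hf0) hint]
        refine hside.trans_le (measure_mono ?_)
        rintro x ⟨hx1, hx2⟩
        refine ⟨?_, hx1⟩
        have hx3 : ⟪(ν : E (n + 1)), (x : E (n + 1))⟫ < 0 := hx2
        have h2 := hp _ (inner_mem_Icc o x)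
        rw [Function.mem_support]
        exact (neg_pos.2 (mul_neg_of_pos_of_neg h2 hx3)).ne'
      rw [integral_neg, h1, neg_zero] at h4
      exact lt_irrefl _ h4
    · -- reflect the centre
      have hn1 : ‖(o : E (n + 1)) - (2 * ⟪(ν : E (n + 1)), (o : E (n + 1))⟫) • (ν : E (n + 1))‖ =
          1 := by
        have h2 : ‖(o : E (n + 1)) - (2 * ⟪(ν : E (n + 1)), (o : E (n + 1))⟫) •
            (ν : E (n + 1))‖ ^ 2 = 1 := by
          rw [@norm_sub_sq_real, norm_smul, norm_coe, norm_coe, real_inner_smul_right,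
            real_inner_comm (ν : E (n + 1)) (o : E (n + 1)), Real.norm_eq_abs, mul_one, sq_abs]
          ring
        exact (pow_eq_one_iff_of_nonneg (norm_nonneg _) two_ne_zero).1 h2
      let o' : Sp n := ⟨(o : E (n + 1)) - (2 * ⟪(ν : E (n + 1)), (o : E (n + 1))⟫) •
        (ν : E (n + 1)), by
          rw [mem_sphere_zero_iff_norm]
          exact hn1⟩
      have hin : ∀ x : Sp n, ⟪(o' : E (n + 1)), (x : E (n + 1))⟫ =
          ⟪(o : E (n + 1)), (x : E (n + 1))⟫ -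
            2 * ⟪(ν : E (n + 1)), (o : E (n + 1))⟫ * ⟪(ν : E (n + 1)), (x : E (n + 1))⟫ := by
        intro x
        simp only [o', inner_sub_left, real_inner_smul_left]
      have hG := Gp_strictAnti hH hp
      have i1 := integrable_Gp (K := frontier Ω) hH hfin o
      have i2 := integrable_Gp (K := frontier Ω) hH hfin o'
      have h4 : 0 < ∫ x in frontier Ω, (Gp H ⟪(o : E (n + 1)), (x : E (n + 1))⟫ -
          Gp H ⟪(o' : E (n + 1)), (x : E (n + 1))⟫) ∂bs n := by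
        have hf0 : ∀ x ∈ frontier Ω, 0 ≤ Gp H ⟪(o : E (n + 1)), (x : E (n + 1))⟫ -
            Gp H ⟪(o' : E (n + 1)), (x : E (n + 1))⟫ := by
          intro x hx
          have h5 : ⟪(o : E (n + 1)), (x : E (n + 1))⟫ ≤ ⟪(o' : E (n + 1)), (x : E (n + 1))⟫ := by
            rw [hin]
            nlinarith [hνf x hx]
          have h6 := hG.antitoneOn (inner_mem_Icc o x) (inner_mem_Icc o' x) h5
          linarith
        rw [setIntegral_pos_iff_support_of_nonneg_ae
          (ae_restrict_of_forall_mem isClosed_frontier.measurableSet hf0) (i1.sub i2)]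
        refine hside.trans_le (measure_mono ?_)
        rintro x ⟨hx1, hx2⟩
        refine ⟨?_, hx1⟩
        have hx3 : ⟪(ν : E (n + 1)), (x : E (n + 1))⟫ < 0 := hx2
        have h5 : ⟪(o : E (n + 1)), (x : E (n + 1))⟫ < ⟪(o' : E (n + 1)), (x : E (n + 1))⟫ := by
          rw [hin]
          nlinarith
        have h6 := hG (inner_mem_Icc o x) (inner_mem_Icc o' x) h5
        rw [Function.mem_support]
        linarith
      rw [integral_sub i1 i2] at h4
      have h7 := ho o' (by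
        rw [hV, mem_setOf_eq]
        intro Φ hΦ
        simp only [o', map_sub, map_smul, hoG Φ hΦ, hνG Φ hΦ])
      linarith

  · intro v hv
    obtain ⟨c, hcG, hc⟩ := integral_vec (μ := bs n) (A := frontier Ω) hfin (G := G)
      (fun Φ hΦ u => by rw [← setIntegral_bs_act, act_frontier, hG Φ hΦ])
      (g := fun x => H ⟪(o : E (n + 1)), (x : E (n + 1))⟫)
      (hH.continuous.comp (continuous_const.inner continuous_subtype_val)) (fun Φ hΦ x => by
        have h1 : ⟪(o : E (n + 1)), (act Φ x : E (n + 1))⟫ = ⟪(o : E (n + 1)), (x : E (n + 1))⟫ := by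
          conv_lhs => rw [← hoG Φ hΦ]
          exact Φ.inner_map_map _ _
        simp only [h1])
    have hoo : ⟪(o : E (n + 1)), (o : E (n + 1))⟫ = 1 := by
      rw [real_inner_self_eq_norm_sq, norm_coe, one_pow]
    obtain ⟨u, hu⟩ : ∃ u : E (n + 1), u = c - ⟪(o : E (n + 1)), c⟫ • (o : E (n + 1)) := ⟨_, rfl⟩
    have huG : ∀ Φ ∈ G, Φ u = u := fun Φ hΦ => by
      rw [hu, map_sub, map_smul, hcG Φ hΦ, hoG Φ hΦ]
    have huo : ⟪(o : E (n + 1)), u⟫ = 0 := by
      rw [hu, inner_sub_right, real_inner_smul_right, hoo]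
      ring
    have hu0 : u = 0 := by
      by_contra hne
      have hup : 0 < ‖u‖ := norm_pos_iff.2 hne
      have h1 := hstat (nrm u) (fun Φ hΦ => by rw [coe_nrm hne, map_smul, huG Φ hΦ]) (by
        rw [coe_nrm hne, real_inner_smul_right, huo, mul_zero])
      rw [hc, coe_nrm hne, real_inner_smul_left] at h1
      have h2 : ⟪u, c⟫ = 0 := by
        rcases mul_eq_zero.1 h1 with h3 | h3
        · exact absurd h3 (inv_pos.2 hup).ne'
        · exact h3
      have h3 : ⟪u, u⟫ = 0 := by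
        have : ⟪u, c - ⟪(o : E (n + 1)), c⟫ • (o : E (n + 1))⟫ = 0 := by
          rw [inner_sub_right, real_inner_smul_right, h2, real_inner_comm (o : E (n + 1)) u, huo,
            mul_zero, sub_zero]
        rwa [← hu] at this
      exact hne (inner_self_eq_zero.1 h3)
    rw [hc v]
    have h1 : c = ⟪(o : E (n + 1)), c⟫ • (o : E (n + 1)) := by
      rw [← sub_eq_zero, ← hu]
      exact hu0
    rw [h1, real_inner_smul_right, real_inner_comm (o : E (n + 1)) v, hv, mul_zero]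

end Pool.Agent.H62.SY
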