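import Pool.Agent.Results.MP_ee2d7c_gt.SymmetricDomains
import Pool.Agent.H62.SS.Isod

set_option autoImplicit false

/-!
# [H62 SY CONTAINS] The convex domains of diameter at most `π/2` are covered by `SymmetricDomains`
-/

namespace Pool.Agent.H62.SY

open Pool.Agent.H62.SS
open scoped RealInnerProductSpace MeasureTheory ENNReal NNReal
open MeasureTheory Set Metric
open Pool.Agent.H62.WS (E sg cst)

variable {n : ℕ}

/-- The statement of `SphereWeinstock`, from `SymmetricDomains.result` and the isodiametric inequality -/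
theorem contains (n : ℕ) (hn : 3 ≤ n) (Ω : Set (Sp n)) (hΩ : IsOpen Ω) (hne : Ω.Nonempty)
    (hc : GConvex Ω)
    (hd : ∀ p ∈ Ω, ∀ q ∈ Ω,
      InnerProductGeometry.angle (p : E (n + 1)) (q : E (n + 1)) ≤ Real.pi / 2) :
    0 < bs n (frontier Ω) ∧ bs n (frontier Ω) < ∞ ∧
    (∀ p : Sp n, bs n (frontier Ω) < bs n (frontier (gball p (Real.pi / 2)))) ∧
    (rayleigh Ω).Nonempty ∧
    ∃ R : ℝ, R ∈ Ioo 0 (Real.pi / 2) ∧
      (∀ p : Sp n, bs n (frontier (gball p R)) = bs n (frontier Ω)) ∧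
      (∀ (p : Sp n) (S : ℝ), S ∈ Ioo 0 (Real.pi / 2) →
        bs n (frontier (gball p S)) = bs n (frontier Ω) → S = R) ∧
      (∀ p : Sp n, (rayleigh (gball p R)).Nonempty ∧ 0 < sigma1 (gball p R)) ∧
      (∀ p : Sp n, sigma1 Ω ≤ sigma1 (gball p R)) ∧
      ∀ p : Sp n, (sigma1 Ω = sigma1 (gball p R) ↔ ∃ (q : Sp n) (S : ℝ), Ω = gball q S) := by
  have hd' : ∀ p ∈ Ω, ∀ q ∈ Ω, 0 ≤ ⟪(p : E (n + 1)), (q : E (n + 1))⟫ := fun p hp q hq => by
    have h1 := InnerProductGeometry.cos_angle (p : E (n + 1)) (q : E (n + 1))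
    rw [norm_coe, norm_coe, mul_one, div_one] at h1
    rw [← h1]
    exact Real.cos_nonneg_of_neg_pi_div_two_le_of_le
      (by linarith [InnerProductGeometry.angle_nonneg (p : E (n + 1)) (q : E (n + 1)),
        Real.pi_pos]) (hd p hp q hq)
  have h : Dom Ω := ⟨hΩ, hne, convex_cn_of_gconvex hc hd', hd'⟩
  obtain ⟨w, hw⟩ := hne
  exact Pool.Agent.Results.MP_ee2d7c_gt.SymmetricDomains.result n hn Ω hΩ ⟨w, hw⟩ hc
    ⟨w, fun p hp => h.inner_pos hw hp⟩
    (Or.inr fun q hq _ p hp => h.inner_pos hq hp)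
    ⟨w, Or.inl (isodiametric (by omega) h w)⟩

end Pool.Agent.H62.SY
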