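import Pool.Agent.H62.SS.EqualS
import Pool.Agent.H62.SY.RhoS
import Pool.Agent.H62.SY.DomH

set_option autoImplicit false

/-!
# [H62 SY EQUALS] `SS/EqualS` for domains in the open hemisphere about the pole
-/

namespace Pool.Agent.H62.SY

open scoped RealInnerProductSpace MeasureTheory ENNReal NNReal
open MeasureTheory Set Metric
open Pool.Agent.H62.WS (E sg cst)
open Pool.Agent.H62.SS

variable {n : ℕ}


theorem eq_ball_of_rho (hn : 2 ≤ n) {Ω : Set (Sp n)} (h : Dh Ω) (ho : nor n ∈ Ω) {R : ℝ}
    (h0 : 0 < R) (h1 : R < Real.pi / 2) (hr : ∀ᵐ θ ∂sg n, rho Ω θ = R) :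
    Ω = gball (nor n) R := by
  have hpi := Real.pi_pos
  have hn1 : 1 ≤ n := by omega
  -- an open set of directions on which `rho ≠ R` is empty
  have key : ∀ U : Set (sphere (0 : E n) 1), IsOpen U → (∀ θ ∈ U, rho Ω θ ≠ R) → U = ∅ := by
    intro U hU h2
    by_contra hne
    have h3 := sg_pos_of_isOpen hn1 hU (nonempty_iff_ne_empty.2 hne)
    have h4 : sg n U = 0 := by
      refine measure_mono_null ?_ (ae_iff.1 hr)
      intro θ hθ
      exact h2 θ hθ
    exact h3.ne' h4
  apply subset_antisymm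
  · have h2 : Ω ⊆ cball (nor n) R := by
      intro p hp
      rw [mem_cball_nor h0.le (by linarith)]
      by_contra hcon
      push Not at hcon
      obtain ⟨θ₀, hθ₀⟩ := exists_pol hn1 p
      have h3 : IsOpen {θ : sphere (0 : E n) 1 | pol (rad p) θ ∈ Ω} :=
        h.isOpen.preimage (continuous_pol_right _)
      have h5 : rad p < Real.pi / 2 := rad_lt_of_mem_closure h ho (subset_closure hp)
      have h4 := key _ h3 (by
        intro θ hθ
        have h6 := (pol_mem_iff h ho ⟨h0.trans hcon, by linarith⟩ θ).1 hθ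
        exact (hcon.trans h6).ne')
      have h7 : θ₀ ∈ {θ : sphere (0 : E n) 1 | pol (rad p) θ ∈ Ω} := by
        rw [mem_setOf_eq, ← hθ₀]
        exact hp
      rw [h4] at h7
      exact h7
    rw [← interior_cball hn1 _ h0 (by linarith)]
    exact interior_maximal h2 h.isOpen
  · intro q hq
    by_contra hqΩ
    obtain ⟨ν, hν1, hν2⟩ := h.sep hqΩ
    -- move `q` a little
    have hc : Continuous (fun ε : ℝ => (q : E (n + 1)) + ε • (ν : E (n + 1))) := by fun_prop
    have hball : cn (gball (nor n) R) ∈ nhds ((q : E (n + 1)) + (0 : ℝ) • (ν : E (n + 1))) := by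
      rw [zero_smul, add_zero]
      exact (isOpen_cn (isOpen_gball _ _)).mem_nhds (coe_mem_cn.2 hq)
    obtain ⟨δ, hδ, h2⟩ := Metric.eventually_nhds_iff.1 ((hc.tendsto 0).eventually hball)
    obtain ⟨t, ht, q', hq', he⟩ := h2 (y := δ / 2)
      (by rw [Real.dist_eq, sub_zero, abs_of_pos (by positivity)]; linarith)
    have h3 : 0 < ⟪(ν : E (n + 1)), (q' : E (n + 1))⟫ := by
      have h4 : ⟪(ν : E (n + 1)), (q : E (n + 1)) + (δ / 2) • (ν : E (n + 1))⟫ =
          t * ⟪(ν : E (n + 1)), (q' : E (n + 1))⟫ := by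
        rw [he, real_inner_smul_right]
      rw [inner_add_right, real_inner_smul_right, real_inner_self_eq_norm_sq, norm_coe] at h4
      have h5 : 0 < t * ⟪(ν : E (n + 1)), (q' : E (n + 1))⟫ := by
        rw [← h4]
        linarith
      exact (pos_iff_pos_of_mul_pos h5).1 ht
    obtain ⟨θ', hθ'⟩ := exists_pol hn1 q'
    rw [mem_gball_nor h0.le (by linarith)] at hq'
    have hrad : 0 < rad q' := by
      refine lt_of_le_of_ne (rad_nonneg q') ?_
      intro h4
      rw [← h4, pol_zero] at hθ'
      rw [hθ'] at h3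
      exact absurd h3 (not_lt.2 (hν1 _ ho).le)
    have hU : IsOpen {θ : sphere (0 : E n) 1 |
        0 < ⟪(ν : E (n + 1)), ((pol (rad q') θ : Sp n) : E (n + 1))⟫} := by
      refine isOpen_lt continuous_const ?_
      exact continuous_const.inner
        (continuous_subtype_val.comp (continuous_pol_right (n := n) (rad q')))
    have h4 := key _ hU (by
      intro θ hθ h5
      have h6 : pol (rad q') θ ∈ Ω := by
        rw [pol_mem_iff h ho ⟨hrad, by linarith⟩, h5]
        exact hq'
      exact absurd hθ (not_lt.2 (hν1 _ h6).le))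
    have h7 : θ' ∈ {θ : sphere (0 : E n) 1 |
        0 < ⟪(ν : E (n + 1)), ((pol (rad q') θ : Sp n) : E (n + 1))⟫} := by
      rw [mem_setOf_eq, ← hθ']
      exact h3
    rw [h4] at h7
    exact h7

end Pool.Agent.H62.SY
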