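import Pool.Agent.H62.SS.MoveS
import Pool.Agent.H62.SY.DomH

set_option autoImplicit false

/-!
# [H62 SY MOVES] `SS/MoveS` for domains in the open hemisphere about the pole
-/

namespace Pool.Agent.H62.SY

open scoped RealInnerProductSpace MeasureTheory ENNReal NNReal
open MeasureTheory Set Metric
open Pool.Agent.H62.WS (E sg cst)
open Pool.Agent.H62.SS

variable {n : ℕ}


theorem integral_Fp_pos (hn : 2 ≤ n) {Ω : Set (Sp n)} (h : Dh Ω) (ho : nor n ∈ Ω) {H : ℝ → ℝ}
    (hH : ContDiff ℝ 1 H) (hp : ∀ c ∈ Icc (-1 : ℝ) 1, 0 < H c) :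
    0 < ∫ p in frontier Ω, Fp H (rad p) ^ 2 ∂bs n := by
  have hpi := Real.pi_pos
  have hc : Continuous (fun p : Sp n => Fp H (rad p) ^ 2) :=
    (((hH.continuous.comp Real.continuous_cos).mul Real.continuous_sin).comp continuous_rad).pow 2
  have hfm : IsFiniteMeasure ((bs n).restrict (frontier Ω)) :=
    ⟨by rw [Measure.restrict_apply_univ]; exact bs_frontier_lt_top hn h⟩
  have hi : IntegrableOn (fun p : Sp n => Fp H (rad p) ^ 2) (frontier Ω) (bs n) :=
    hc.integrable_of_hasCompactSupport (HasCompactSupport.of_compactSpace _)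
  rw [setIntegral_pos_iff_support_of_nonneg_ae
    (Filter.Eventually.of_forall fun p => sq_nonneg _) hi]
  refine (bs_frontier_pos hn h).trans_le (measure_mono fun p hp' => ⟨?_, hp'⟩)
  have h1 : rad p < Real.pi / 2 := by
    have h2 := h.hemi _ (frontier_subset_closure hp')
    rw [inner_nor, ← cos_rad] at h2
    by_contra h3
    push Not at h3
    have h4 := Real.cos_nonpos_of_pi_div_two_le_of_le h3 (by linarith [rad_le_pi p])
    linarith
  have h2 : 0 < rad p := by
    rcases (rad_nonneg p).lt_or_eq with h3 | h3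
    · exact h3
    · exfalso
      obtain ⟨θ, hθ⟩ := exists_pol (by omega : 1 ≤ n) p
      rw [← h3, pol_zero] at hθ
      rw [hθ, h.isOpen.frontier_eq] at hp'
      exact hp'.2 ho
  have h3 : 0 < Fp H (rad p) := by
    unfold Fp
    exact mul_pos (hp _ ⟨Real.neg_one_le_cos _, Real.cos_le_one _⟩)
      (Real.sin_pos_of_pos_of_lt_pi h2 (by linarith))
  rw [Function.mem_support]
  positivity

end Pool.Agent.H62.SY
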