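import Pool.Agent.H62.SS.OutMe
import Pool.Agent.H62.SY.RhoS
import Pool.Agent.H62.SY.DomH

set_option autoImplicit false

/-!
# [H62 SY OUTME] `SS/OutMe` for domains in the open hemisphere about the pole
-/

namespace Pool.Agent.H62.SY

open scoped RealInnerProductSpace MeasureTheory ENNReal NNReal
open MeasureTheory Set Metric
open Pool.Agent.H62.WS (E sg cst)
open Pool.Agent.H62.SS

variable {n : ℕ}


theorem outer_step (hn : 2 ≤ n) {Ω : Set (Sp n)} (h : Dh Ω) (ho : nor n ∈ Ω) {A : Set ℝ}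
    (hA : MeasurableSet A) {c l : ℝ} (hc : 0 < c) (hl : 1 < l)
    (hAc : ∀ t ∈ A, c ≤ Real.sin t ∧ Real.sin t < l * c) :
    cst n * ∫⁻ θ in {θ | rho Ω θ ∈ A}, ENNReal.ofReal (Real.sin (rho Ω θ) ^ (n - 1)) ∂sg n ≤
      ENNReal.ofReal (l ^ (n - 1)) * bs n (frontier Ω ∩ {p | rad p ∈ A}) := by
  have hpi := Real.pi_pos
  have hm : MeasurableSet {θ | rho Ω θ ∈ A} := measurable_rho h ho hA
  rcases eq_empty_or_nonempty {θ | rho Ω θ ∈ A} with hem | ⟨θ₀, hθ₀⟩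
  · rw [hem, Measure.restrict_empty, lintegral_zero_measure, mul_zero]
    exact zero_le
  have hc1 : c ≤ 1 := (hAc _ hθ₀).1.trans (Real.sin_le_one _)
  have hsr : Real.sin (Real.arcsin c) = c := Real.sin_arcsin (by linarith) hc1
  have h1 := outer_meas hn (r := Real.arcsin c) (Real.arcsin_pos.2 hc) (Real.arcsin_le_pi_div_two c)
    hm (frontier Ω) (by
      intro θ hθ
      refine ⟨rho Ω θ, ?_, (rho_lt h ho θ).le, pol_rho_mem_frontier h ho θ⟩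
      rw [Real.arcsin_le_iff_le_sin ⟨by linarith, hc1⟩
        ⟨by linarith [rho_pos h ho θ], (rho_lt h ho θ).le⟩]
      exact (hAc _ hθ).1)
  rw [hsr] at h1
  have h2 : bs n (frontier Ω ∩ {p | ∃ θ ∈ {θ | rho Ω θ ∈ A}, ∃ t, Real.arcsin c ≤ t ∧
      t ≤ Real.pi / 2 ∧ p = pol t θ}) ≤ bs n (frontier Ω ∩ {p | rad p ∈ A}) := by
    apply measure_mono
    rintro p ⟨hp, θ, hθ, t, ht1, ht2, hpt⟩
    refine ⟨hp, ?_⟩
    obtain ⟨η, hη1, hη2⟩ := frontier_eq_rho (by omega) h ho hp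
    have h3 := pol_inj (r := t) (s := rho Ω η) (θ := θ) (η := η)
      ⟨(Real.arcsin_pos.2 hc).trans_le ht1, by linarith⟩
      ⟨rho_pos h ho η, by linarith [rho_lt h ho η]⟩ (hpt.symm.trans hη2)
    rw [mem_setOf_eq, hη1, ← h3.2]
    exact hθ
  have h3 : ∫⁻ θ in {θ | rho Ω θ ∈ A}, ENNReal.ofReal (Real.sin (rho Ω θ) ^ (n - 1)) ∂sg n ≤
      ENNReal.ofReal ((l * c) ^ (n - 1)) * sg n {θ | rho Ω θ ∈ A} := by
    rw [← setLIntegral_const]
    apply setLIntegral_mono' hm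
    intro θ hθ
    apply ENNReal.ofReal_le_ofReal
    exact pow_le_pow_left₀ (hc.le.trans (hAc _ hθ).1) (hAc _ hθ).2.le _
  calc cst n * ∫⁻ θ in {θ | rho Ω θ ∈ A}, ENNReal.ofReal (Real.sin (rho Ω θ) ^ (n - 1)) ∂sg n
      ≤ cst n * (ENNReal.ofReal ((l * c) ^ (n - 1)) * sg n {θ | rho Ω θ ∈ A}) :=
        mul_le_mul_right h3 _
    _ = ENNReal.ofReal (l ^ (n - 1)) *
        (ENNReal.ofReal (c ^ (n - 1)) * (cst n * sg n {θ | rho Ω θ ∈ A})) := by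
        rw [mul_pow, ENNReal.ofReal_mul (by positivity)]
        ring
    _ ≤ _ := mul_le_mul_right (h1.trans h2) _

theorem outer_lam (hn : 2 ≤ n) {Ω : Set (Sp n)} (h : Dh Ω) (ho : nor n ∈ Ω) {A : Set ℝ}
    (hA : MeasurableSet A) {l : ℝ} (hl : 1 < l) :
    cst n * ∫⁻ θ in {θ | rho Ω θ ∈ A}, ENNReal.ofReal (Real.sin (rho Ω θ) ^ (n - 1)) ∂sg n ≤
      ENNReal.ofReal (l ^ (n - 1)) * bs n (frontier Ω ∩ {p | rad p ∈ A}) := by
  have hl0 : 0 < l := by linarith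
  let B : ℤ → Set ℝ := fun k => A ∩ {t | Real.sin t ∈ Ico (l ^ k) (l ^ (k + 1))}
  have hB : ∀ k, MeasurableSet (B k) := fun k =>
    hA.inter (Real.measurable_sin measurableSet_Ico)
  have hcov : {θ | rho Ω θ ∈ A} ⊆ ⋃ k, {θ | rho Ω θ ∈ B k} := by
    intro θ hθ
    have hs : 0 < Real.sin (rho Ω θ) := Real.sin_pos_of_pos_of_lt_pi (rho_pos h ho θ)
      (by linarith [rho_lt h ho θ, Real.pi_pos])
    obtain ⟨k, hk⟩ := exists_mem_Ico_zpow hs hl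
    exact mem_iUnion.2 ⟨k, hθ, hk⟩
  have h1 : ∫⁻ θ in {θ | rho Ω θ ∈ A}, ENNReal.ofReal (Real.sin (rho Ω θ) ^ (n - 1)) ∂sg n ≤
      ∑' k, ∫⁻ θ in {θ | rho Ω θ ∈ B k}, ENNReal.ofReal (Real.sin (rho Ω θ) ^ (n - 1)) ∂sg n :=
    (lintegral_mono_set hcov).trans (lintegral_iUnion_le _ _)
  have h2 : ∀ k, cst n * ∫⁻ θ in {θ | rho Ω θ ∈ B k},
      ENNReal.ofReal (Real.sin (rho Ω θ) ^ (n - 1)) ∂sg n ≤
      ENNReal.ofReal (l ^ (n - 1)) * bs n (frontier Ω ∩ {p | rad p ∈ B k}) := by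
    intro k
    refine outer_step hn h ho (hB k) (c := l ^ k) (zpow_pos hl0 k) hl ?_
    rintro t ⟨-, ht⟩
    refine ⟨ht.1, ?_⟩
    have h3 := ht.2
    rw [zpow_add₀ hl0.ne', zpow_one] at h3
    linarith
  have hdis : Pairwise (Function.onFun Disjoint fun k : ℤ => frontier Ω ∩ {p : Sp n | rad p ∈ B k}) := by
    have key : ∀ i j : ℤ, i < j → Disjoint (frontier Ω ∩ {p : Sp n | rad p ∈ B i})
        (frontier Ω ∩ {p : Sp n | rad p ∈ B j}) := by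
      intro i j hij
      rw [Set.disjoint_left]
      rintro p ⟨-, -, hp1⟩ ⟨-, -, hp2⟩
      have h4 : l ^ (i + 1) ≤ l ^ j := zpow_le_zpow_right₀ hl.le (by omega)
      exact absurd (hp1.2.trans_le h4) (not_lt.2 hp2.1)
    intro i j hij
    rcases lt_or_gt_of_ne hij with h5 | h5
    · exact key i j h5
    · exact (key j i h5).symm
  have hms : ∀ k : ℤ, MeasurableSet (frontier Ω ∩ {p : Sp n | rad p ∈ B k}) := fun k =>
    isClosed_frontier.measurableSet.inter (continuous_rad.measurable (hB k))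
  calc cst n * ∫⁻ θ in {θ | rho Ω θ ∈ A}, ENNReal.ofReal (Real.sin (rho Ω θ) ^ (n - 1)) ∂sg n
      ≤ cst n * ∑' k, ∫⁻ θ in {θ | rho Ω θ ∈ B k},
          ENNReal.ofReal (Real.sin (rho Ω θ) ^ (n - 1)) ∂sg n := mul_le_mul_right h1 _
    _ = ∑' k, cst n * ∫⁻ θ in {θ | rho Ω θ ∈ B k},
          ENNReal.ofReal (Real.sin (rho Ω θ) ^ (n - 1)) ∂sg n := ENNReal.tsum_mul_left.symm
    _ ≤ ∑' k, ENNReal.ofReal (l ^ (n - 1)) * bs n (frontier Ω ∩ {p | rad p ∈ B k}) :=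
        ENNReal.tsum_le_tsum h2
    _ = ENNReal.ofReal (l ^ (n - 1)) * ∑' k, bs n (frontier Ω ∩ {p | rad p ∈ B k}) :=
        ENNReal.tsum_mul_left
    _ = ENNReal.ofReal (l ^ (n - 1)) * bs n (⋃ k, frontier Ω ∩ {p | rad p ∈ B k}) := by
        rw [measure_iUnion hdis hms]
    _ ≤ ENNReal.ofReal (l ^ (n - 1)) * bs n (frontier Ω ∩ {p | rad p ∈ A}) := by
        refine mul_le_mul_right (measure_mono ?_) _
        refine iUnion_subset fun k => ?_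
        rintro p ⟨hp1, hp2, -⟩
        exact ⟨hp1, hp2⟩

theorem outer_measure_le (hn : 2 ≤ n) {Ω : Set (Sp n)} (h : Dh Ω) (ho : nor n ∈ Ω) {A : Set ℝ}
    (hA : MeasurableSet A) :
    cst n * ∫⁻ θ in {θ | rho Ω θ ∈ A}, ENNReal.ofReal (Real.sin (rho Ω θ) ^ (n - 1)) ∂sg n ≤
      bs n (frontier Ω ∩ {p | rad p ∈ A}) := by
  have ht : Filter.Tendsto (fun l : ℝ => ENNReal.ofReal (l ^ (n - 1)) *
      bs n (frontier Ω ∩ {p | rad p ∈ A})) (nhdsWithin 1 (Ioi 1))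
      (nhds (ENNReal.ofReal (1 ^ (n - 1)) * bs n (frontier Ω ∩ {p | rad p ∈ A}))) := by
    refine ENNReal.Tendsto.mul_const ?_ (Or.inl (by simp))
    refine ENNReal.tendsto_ofReal ?_
    have hc : Continuous (fun l : ℝ => l ^ (n - 1)) := continuous_pow _
    exact (hc.tendsto 1).mono_left nhdsWithin_le_nhds
  have h1 : ENNReal.ofReal (1 ^ (n - 1)) * bs n (frontier Ω ∩ {p | rad p ∈ A}) =
      bs n (frontier Ω ∩ {p | rad p ∈ A}) := by simp
  rw [h1] at ht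
  refine ge_of_tendsto ht ?_
  filter_upwards [self_mem_nhdsWithin] with l hl
  exact outer_lam hn h ho hA hl

end Pool.Agent.H62.SY
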