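import Pool.Agent.H62.SS.StarA
import Pool.Agent.H62.SY.OutInt
import Pool.Agent.H62.SY.VolInt
import Pool.Agent.H62.SY.DomH

set_option autoImplicit false

/-!
# [H62 SY STARA] `SS/StarA` for domains in the open hemisphere about the pole
-/

namespace Pool.Agent.H62.SY

open scoped RealInnerProductSpace MeasureTheory ENNReal NNReal
open MeasureTheory Set Metric
open Pool.Agent.H62.WS (E sg cst)
open Pool.Agent.H62.SS

variable {n : ℕ}

theorem integrable_rho {Ω : Set (Sp n)} (h : Dh Ω) (ho : nor n ∈ Ω) {g : ℝ → ℝ}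
    (hg : Measurable g) {C : ℝ} (hC : ∀ t ∈ Icc 0 Real.pi, |g t| ≤ C) :
    Integrable (fun θ => g (rho Ω θ)) (sg n) := by
  refine Integrable.of_bound (hg.comp (measurable_rho h ho)).aestronglyMeasurable C ?_
  filter_upwards with θ
  exact hC _ ⟨(rho_pos h ho θ).le, by linarith [rho_lt h ho θ, Real.pi_pos]⟩

theorem integrable_rad (hn : 2 ≤ n) {Ω : Set (Sp n)} (h : Dh Ω) {g : ℝ → ℝ}
    (hg : Measurable g) {C : ℝ} (hC : ∀ t ∈ Icc 0 Real.pi, |g t| ≤ C) :
    IntegrableOn (fun p : Sp n => g (rad p)) (frontier Ω) (bs n) := by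
  have hfm : IsFiniteMeasure ((bs n).restrict (frontier Ω)) :=
    ⟨by rw [Measure.restrict_apply_univ]; exact bs_frontier_lt_top hn h⟩
  refine Integrable.of_bound (hg.comp continuous_rad.measurable).aestronglyMeasurable C ?_
  filter_upwards with p
  exact hC _ ⟨rad_nonneg p, rad_le_pi p⟩

theorem star_pos (hn : 2 ≤ n) {Ω : Set (Sp n)} (h : Dh Ω) (ho : nor n ∈ Ω)
    {R γ m κ r₀ : ℝ} {H : ℝ → ℝ} (P : Prof (n - 1) R γ m κ r₀ H) :
    (cst n).toReal * ∫ θ, (if r₀ ≤ rho Ω θ then
        (γ * Fp H (rho Ω θ) ^ 2 - m) * Real.sin (rho Ω θ) ^ (n - 1) else 0) ∂sg n ≤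
      ∫ p in frontier Ω, max (γ * Fp H (rad p) ^ 2 - m) 0 ∂bs n := by
  have hpi := Real.pi_pos
  have hF := continuous_Fp P.contDiff
  have hac : Continuous (fun t => γ * Fp H t ^ 2 - m) :=
    (continuous_const.mul (hF.pow 2)).sub continuous_const
  have hasc : Continuous (fun t => (γ * Fp H t ^ 2 - m) * Real.sin t ^ (n - 1)) :=
    hac.mul (Real.continuous_sin.pow _)
  let φ : ℝ → ℝ≥0∞ := fun t => ENNReal.ofReal (if r₀ ≤ t then γ * Fp H t ^ 2 - m else 0)
  have hφ : Measurable φ :=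
    (Measurable.ite measurableSet_Ici hac.measurable measurable_const).ennreal_ofReal
  have h1 := outer_int hn h ho hφ
  let g : ℝ → ℝ := fun t => if r₀ ≤ t then (γ * Fp H t ^ 2 - m) * Real.sin t ^ (n - 1) else 0
  have hg : Measurable g := Measurable.ite measurableSet_Ici hasc.measurable measurable_const
  obtain ⟨C, hC0, hC⟩ := exists_bound_pi hasc
  have hgC : ∀ t ∈ Icc 0 Real.pi, |g t| ≤ C := by
    intro t ht
    simp only [g]
    split_ifs
    · exact hC t ht
    · simpa using hC0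
  have hgi := integrable_rho h ho hg hgC
  have hg0 : ∀ θ, 0 ≤ g (rho Ω θ) := by
    intro θ
    simp only [g]
    split_ifs with h2
    · refine mul_nonneg ?_ (pow_nonneg (Real.sin_nonneg_of_nonneg_of_le_pi (rho_pos h ho θ).le
        (by linarith [rho_lt h ho θ])) _)
      linarith [P.ge _ ⟨h2, (rho_lt h ho θ).le⟩]
    · exact le_rfl
  have hL : ∫⁻ θ, φ (rho Ω θ) * ENNReal.ofReal (Real.sin (rho Ω θ) ^ (n - 1)) ∂sg n =
      ENNReal.ofReal (∫ θ, g (rho Ω θ) ∂sg n) := by
    rw [ofReal_integral_eq_lintegral_ofReal hgi (Filter.Eventually.of_forall hg0)]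
    apply lintegral_congr
    intro θ
    simp only [φ, g]
    split_ifs with h2
    · rw [ENNReal.ofReal_mul]
      linarith [P.ge _ ⟨h2, (rho_lt h ho θ).le⟩]
    · simp
  obtain ⟨C2, hC20, hC2⟩ := exists_bound_pi (hac.max continuous_const : Continuous (fun t =>
    max (γ * Fp H t ^ 2 - m) 0))
  have hri := integrable_rad hn h (hac.max continuous_const : Continuous (fun t =>
    max (γ * Fp H t ^ 2 - m) 0)).measurable hC2
  have hR : ∫⁻ p in frontier Ω, φ (rad p) ∂bs n ≤
      ENNReal.ofReal (∫ p in frontier Ω, max (γ * Fp H (rad p) ^ 2 - m) 0 ∂bs n) := by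
    rw [ofReal_integral_eq_lintegral_ofReal hri
      (Filter.Eventually.of_forall fun p => le_max_right _ _)]
    apply lintegral_mono
    intro p
    apply ENNReal.ofReal_le_ofReal
    split_ifs
    · exact le_max_left _ _
    · exact le_max_right _ _
  rw [hL] at h1
  have h2 := ENNReal.toReal_mono ENNReal.ofReal_ne_top (h1.trans hR)
  have h3 : 0 ≤ ∫ p in frontier Ω, max (γ * Fp H (rad p) ^ 2 - m) 0 ∂bs n :=
    integral_nonneg fun p => le_max_right _ _
  rw [ENNReal.toReal_mul, ENNReal.toReal_ofReal (integral_nonneg hg0),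
    ENNReal.toReal_ofReal h3] at h2
  exact h2

end Pool.Agent.H62.SY
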