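import Pool.Agent.H62.SS.StarB
import Pool.Agent.H62.SY.StarN
import Pool.Agent.H62.SY.VolInt
import Pool.Agent.H62.SY.DomH

set_option autoImplicit false

/-!
# [H62 SY STARB] `SS/StarB` for domains in the open hemisphere about the pole
-/

namespace Pool.Agent.H62.SY

open scoped RealInnerProductSpace MeasureTheory ENNReal NNReal
open MeasureTheory Set Metric
open Pool.Agent.H62.WS (E sg cst)
open Pool.Agent.H62.SS

variable {n : ℕ}


theorem integrable_ite_rhoB {Ω : Set (Sp n)} (h : Dh Ω) (ho : nor n ∈ Ω) (r₀ : ℝ)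
    {G G' : ℝ → ℝ} (hG : Continuous G) (hG' : Continuous G') :
    Integrable (fun θ => if r₀ ≤ rho Ω θ then G (rho Ω θ) else G' (rho Ω θ)) (sg n) := by
  have hρm := measurable_rho h ho
  obtain ⟨C, hC⟩ := (isCompact_Icc (a := (0 : ℝ)) (b := Real.pi / 2)).exists_bound_of_continuousOn
    hG.continuousOn
  obtain ⟨C', hC'⟩ := (isCompact_Icc (a := (0 : ℝ)) (b := Real.pi / 2)).exists_bound_of_continuousOn
    hG'.continuousOn
  refine Integrable.of_bound (C := max C C') ?_ (Filter.Eventually.of_forall fun θ => ?_)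
  · exact (Measurable.ite (measurableSet_le measurable_const hρm) (hG.measurable.comp hρm)
      (hG'.measurable.comp hρm)).aestronglyMeasurable
  · have h1 : rho Ω θ ∈ Icc (0 : ℝ) (Real.pi / 2) := ⟨(rho_pos h ho θ).le, (rho_lt h ho θ).le⟩
    show ‖(if r₀ ≤ rho Ω θ then G (rho Ω θ) else G' (rho Ω θ))‖ ≤ max C C'
    split_ifs
    · exact (hC _ h1).trans (le_max_left _ _)
    · exact (hC' _ h1).trans (le_max_right _ _)

theorem integrable_bs_of_continuousB (hn : 2 ≤ n) {Ω : Set (Sp n)} (h : Dh Ω) {f : Sp n → ℝ}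
    (hf : Continuous f) : Integrable f ((bs n).restrict (frontier Ω)) := by
  have hfin : IsFiniteMeasure ((bs n).restrict (frontier Ω)) :=
    ⟨by rw [Measure.restrict_apply_univ]; exact bs_frontier_lt_top hn h⟩
  exact hf.integrable_of_hasCompactSupport (HasCompactSupport.of_compactSpace f)

theorem integrable_AA (hn : 2 ≤ n) {Ω : Set (Sp n)} (h : Dh Ω) (ho : nor n ∈ Ω)
    {R γ m κ r₀ : ℝ} {H : ℝ → ℝ} (P : Prof (n - 1) R γ m κ r₀ H) :
    Integrable (fun θ => AA (n - 1) γ m κ r₀ H (rho Ω θ)) (sg n) := by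
  have h1 := continuous_aF P.contDiff γ m (n - 1)
  have h2 := continuous_hpS P.contDiff κ (n - 1)
  have h3 := continuous_FF' P.contDiff γ (n - 1)
  have h4 : Continuous (fun ρ : ℝ => ∫ t in (0 : ℝ)..ρ, (hp (n - 1) H t - κ) * Real.sin t ^ (n - 1)) :=
    intervalIntegral.continuous_primitive (fun a b => h2.intervalIntegrable a b) 0
  exact integrable_ite_rhoB h ho r₀ (h1.sub h4) ((continuous_primitive_leftB h3 r₀).neg.sub h4)

theorem star_int (hn : 2 ≤ n) {Ω : Set (Sp n)} (h : Dh Ω) (ho : nor n ∈ Ω)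
    {R γ m κ r₀ : ℝ} {H : ℝ → ℝ} (P : Prof (n - 1) R γ m κ r₀ H) :
    ∫ θ, AA (n - 1) γ m κ r₀ H (rho Ω θ) ∂sg n ≤
      (∫ p in frontier Ω, (γ * Fp H (rad p) ^ 2 - m) ∂bs n) / (cst n).toReal -
        ∫ p in Ω, (hp (n - 1) H (rad p) - κ) ∂sg (n + 1) := by
  have h1 := continuous_aF P.contDiff γ m (n - 1)
  have h2 := continuous_hpS P.contDiff κ (n - 1)
  have h3 := continuous_FF' P.contDiff γ (n - 1)
  have hc : 0 < (cst n).toReal := ENNReal.toReal_pos (Pool.Agent.H62.WS.cst_ne_zero hn)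
    (Pool.Agent.H62.WS.cst_ne_top hn)
  have hpos := star_pos hn h ho P
  have hneg := star_neg hn h ho P
  have hvol := integral_dom hn h ho (φ := fun t => hp (n - 1) H t - κ)
    ((continuous_hp (n - 1) P.contDiff).sub continuous_const)
  have hi1 := integrable_ite_rhoB h ho r₀ (G := fun t => (γ * Fp H t ^ 2 - m) * Real.sin t ^ (n - 1))
    (G' := fun _ => 0) h1 continuous_const
  have hi2 := integrable_ite_rhoB h ho r₀ (G := fun _ => 0)
    (G' := fun ρ => ∫ t in ρ..r₀, 2 * γ * Fp H t * Fp' H t * Real.sin t ^ (n - 1))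
    continuous_const (continuous_primitive_leftB h3 r₀)
  have hi3 := integrable_dom hn h ho (φ := fun t => hp (n - 1) H t - κ)
    ((continuous_hp (n - 1) P.contDiff).sub continuous_const)
  have hac : Continuous (fun t => γ * Fp H t ^ 2 - m) :=
    (continuous_const.mul ((continuous_Fp P.contDiff).pow 2)).sub continuous_const
  have hm1 := integrable_bs_of_continuousB hn h
    (f := fun p => max (γ * Fp H (rad p) ^ 2 - m) 0) ((hac.comp continuous_rad).max continuous_const)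
  have hm2 := integrable_bs_of_continuousB hn h
    (f := fun p => max (-(γ * Fp H (rad p) ^ 2 - m)) 0)
    ((hac.comp continuous_rad).neg.max continuous_const)
  have hA : ∀ θ, AA (n - 1) γ m κ r₀ H (rho Ω θ) =
      ((if r₀ ≤ rho Ω θ then
        (γ * Fp H (rho Ω θ) ^ 2 - m) * Real.sin (rho Ω θ) ^ (n - 1) else 0) -
      (if r₀ ≤ rho Ω θ then 0 else
        ∫ t in rho Ω θ..r₀, 2 * γ * Fp H t * Fp' H t * Real.sin t ^ (n - 1))) -
      ∫ t in (0 : ℝ)..rho Ω θ, (hp (n - 1) H t - κ) * Real.sin t ^ (n - 1) := by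
    intro θ
    unfold AA
    split_ifs
    · ring
    · ring
  have hsplit : ∫ p in frontier Ω, (γ * Fp H (rad p) ^ 2 - m) ∂bs n =
      ∫ p in frontier Ω, max (γ * Fp H (rad p) ^ 2 - m) 0 ∂bs n -
      ∫ p in frontier Ω, max (-(γ * Fp H (rad p) ^ 2 - m)) 0 ∂bs n := by
    rw [← integral_sub hm1 hm2]
    refine integral_congr_ae (Filter.Eventually.of_forall fun p => ?_)
    show γ * Fp H (rad p) ^ 2 - m = max (γ * Fp H (rad p) ^ 2 - m) 0 -
      max (-(γ * Fp H (rad p) ^ 2 - m)) 0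
    rcases le_total 0 (γ * Fp H (rad p) ^ 2 - m) with h5 | h5
    · rw [max_eq_left h5, max_eq_right (by linarith)]
      ring
    · rw [max_eq_right h5, max_eq_left (by linarith)]
      ring
  have hI : ∫ θ, AA (n - 1) γ m κ r₀ H (rho Ω θ) ∂sg n =
      (∫ θ, (if r₀ ≤ rho Ω θ then
        (γ * Fp H (rho Ω θ) ^ 2 - m) * Real.sin (rho Ω θ) ^ (n - 1) else 0) ∂sg n -
      ∫ θ, (if r₀ ≤ rho Ω θ then 0 else
        ∫ t in rho Ω θ..r₀, 2 * γ * Fp H t * Fp' H t * Real.sin t ^ (n - 1)) ∂sg n) -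
      ∫ θ, (∫ t in (0 : ℝ)..rho Ω θ, (hp (n - 1) H t - κ) * Real.sin t ^ (n - 1)) ∂sg n := by
    have hi12 : Integrable (fun θ => (if r₀ ≤ rho Ω θ then
        (γ * Fp H (rho Ω θ) ^ 2 - m) * Real.sin (rho Ω θ) ^ (n - 1) else 0) -
      (if r₀ ≤ rho Ω θ then 0 else
        ∫ t in rho Ω θ..r₀, 2 * γ * Fp H t * Fp' H t * Real.sin t ^ (n - 1))) (sg n) :=
      hi1.sub hi2
    rw [← integral_sub hi1 hi2, ← integral_sub hi12 hi3]
    exact integral_congr_ae (Filter.Eventually.of_forall hA)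
  rw [hI, ← hvol, hsplit]
  refine sub_le_sub_right ?_ _
  rw [le_div_iff₀ hc]
  linarith

end Pool.Agent.H62.SY
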