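import Pool.Agent.H62.SY.CentG
import Pool.Agent.H62.SY.Star
import Pool.Agent.H62.SY.EqualS
import Pool.Agent.H62.SY.MoveS
import Pool.Agent.H62.SS.CaseB
import Pool.Agent.H32.SV.MainS

set_option autoImplicit false

/-!
# [H62 SY MAIN] The Weinstock inequality for symmetric convex domains of the sphere
-/

namespace Pool.Agent.H62.SY

open scoped RealInnerProductSpace MeasureTheory ENNReal NNReal
open MeasureTheory Set Metric
open Pool.Agent.H62.WS (E sg cst)
open Pool.Agent.H62.SS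
open Pool.Agent.H32.SV (Hd Weinstock lt_of_hemi)

variable {n : ℕ}

theorem move_int {Ω : Set (Sp n)} {q : Sp n} {H : ℝ → ℝ}
    (hint : ∀ v : E (n + 1), ⟪(q : E (n + 1)), v⟫ = 0 →
      ∫ x in frontier Ω, H ⟪(q : E (n + 1)), (x : E (n + 1))⟫ * ⟪v, (x : E (n + 1))⟫ ∂bs n = 0)
    {Φ : E (n + 1) ≃ₗᵢ[ℝ] E (n + 1)} (hΦ : act Φ q = nor n) (i : Fin n) :
    ∫ p in frontier (act Φ '' Ω), uH H i (p : E (n + 1)) ∂bs n = 0 := by
  rw [← act_frontier, setIntegral_bs_act]
  set e : E (n + 1) := EuclideanSpace.single i.succ 1 with he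
  have hei : ∀ z : E (n + 1), ⟪e, z⟫ = z i.succ := fun z => by
    rw [he, EuclideanSpace.inner_single_left]
    simp
  have hΦo : Φ (q : E (n + 1)) = e0 n := by
    have h1 := congrArg (fun q : Sp n => (q : E (n + 1))) hΦ
    exact h1
  have hov : ⟪(q : E (n + 1)), Φ.symm e⟫ = 0 := by
    rw [← Φ.inner_map_map, hΦo, Φ.apply_symm_apply, inner_e0, he]
    simp [EuclideanSpace.single_apply, (Fin.succ_ne_zero i).symm]
  have h2 := hint (Φ.symm e) hov
  rw [← h2]
  refine integral_congr_ae (Filter.Eventually.of_forall fun x => ?_)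
  show H ((act Φ x : E (n + 1)) 0) * (act Φ x : E (n + 1)) i.succ = _
  have h3 : (act Φ x : E (n + 1)) 0 = ⟪(q : E (n + 1)), (x : E (n + 1))⟫ := by
    rw [← inner_e0, ← hΦo]
    exact Φ.inner_map_map _ _
  have h4 : (act Φ x : E (n + 1)) i.succ = ⟪Φ.symm e, (x : E (n + 1))⟫ := by
    rw [← hei, act_coe, ← Φ.inner_map_map (Φ.symm e), Φ.apply_symm_apply]
  rw [h3, h4]

/-- a convex domain in the open hemisphere about its centre, perimeter at most that of the ball of radius `π/4` -/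
theorem case_sym (hn : 3 ≤ n) {Ω : Set (Sp n)} (h : Hd Ω)
    (hcen : ∀ H : ℝ → ℝ, ContDiff ℝ 1 H → (∀ c ∈ Icc (-1 : ℝ) 1, 0 < H c) → ∃ q ∈ Ω,
      (∀ x ∈ closure Ω, 0 < ⟪(q : E (n + 1)), (x : E (n + 1))⟫) ∧
      ∀ v : E (n + 1), ⟪(q : E (n + 1)), v⟫ = 0 →
        ∫ x in frontier Ω, H ⟪(q : E (n + 1)), (x : E (n + 1))⟫ * ⟪v, (x : E (n + 1))⟫ ∂bs n =
          0) {R : ℝ} (h0 : 0 < R)
    (h1 : R ≤ Real.pi / 4) (hR : bs n (frontier Ω) = bs n (gsph (nor n) R)) :
    sigma1 Ω ≤ gS (n - 1) R / (cst n).toReal ∧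
      (gS (n - 1) R / (cst n).toReal ≤ sigma1 Ω → ∃ q, Ω = gball q R) := by
  have hn2 : 2 ≤ n := by omega
  have hN : 2 ≤ n - 1 := by omega
  have hpi := Real.pi_pos
  obtain ⟨m, κ, r₀, H, P⟩ := exists_prof hN h0 h1
  obtain ⟨q, hqΩ, hq, hint'⟩ := hcen H P.contDiff P.pos
  obtain ⟨Φ, hΦ⟩ := exists_act q (nor n)
  have hoΦ : nor n ∈ act Φ '' Ω := ⟨q, hqΩ, hΦ⟩
  have hint : ∀ i : Fin n, ∫ p in frontier (act Φ '' Ω), uH H i (p : E (n + 1)) ∂bs n = 0 :=
    move_int hint' hΦ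
  have hd : Dh (act Φ '' Ω) := dh_move h hq hΦ
  set W : Set (Sp n) := act Φ '' Ω with hW
  have hbs : bs n (frontier W) = bs n (gsph (nor n) R) := by
    rw [hW, ← act_frontier, bs_act_image, hR]
  have hc := cst_toReal_pos hn2
  have hA := bs_toReal_of_eq hn2 h0 (by linarith) hbs
  have hvol : (sg (n + 1) W).toReal ≤ VS (n - 1) R * (sg n univ).toReal := by
    rw [← sg_gball_toReal hn2 (nor n) h0.le (by linarith)]
    exact ENNReal.toReal_mono (measure_ne_top _ _)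
      (isoperimetric hn2 hd h0 (by linarith) hbs)
  have hfin : bs n (frontier W) < ∞ := bs_frontier_lt_top hn2 hd
  have hup := sigma1_mul_le hn2 hfin P.contDiff hint
  have hst := star hn2 hd hoΦ P
  have hI := integral_Fp_pos hn2 hd hoΦ P.contDiff P.pos
  have hAz : (bs n (frontier W)).toReal / (cst n).toReal -
      Real.sin R ^ (n - 1) * (sg n univ).toReal = 0 := by
    rw [hA]
    field_simp
    ring
  have hκ : 0 ≤ κ * (VS (n - 1) R * (sg n univ).toReal - (sg (n + 1) W).toReal) :=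
    mul_nonneg P.kap_nonneg (by linarith)
  rw [hAz, mul_zero, zero_add] at hst
  have hsig : sigma1 W = sigma1 Ω := sigma1_act Φ Ω
  rw [hsig] at hup
  set I := ∫ p in frontier W, Fp H (rad p) ^ 2 ∂bs n with hIdef
  have e1 : gS (n - 1) R * I / (cst n).toReal = gS (n - 1) R / (cst n).toReal * I := by ring
  constructor
  · have h2 : sigma1 Ω * I ≤ gS (n - 1) R / (cst n).toReal * I := by
      rw [← e1]
      linarith
    exact le_of_mul_le_mul_right h2 hI
  · intro hge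
    have h2 : gS (n - 1) R / (cst n).toReal * I ≤ sigma1 Ω * I :=
      mul_le_mul_of_nonneg_right hge hI.le
    have h3 := star_eq hn2 hd hoΦ P (by rw [hAz, mul_zero, zero_add, ← hIdef]; linarith)
    have h4 := eq_ball_of_rho hn2 hd hoΦ h0 (by linarith) h3
    refine ⟨act Φ.symm (nor n), ?_⟩
    rw [← act_gball, ← h4, hW, image_image]
    simp only [act_symm_act, image_id']

/-- a convex domain in the open hemisphere about its centre, volume at most that of the ball of radius `π/4` -/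
theorem case_sym_large (hn : 3 ≤ n) {Ω : Set (Sp n)} (h : Hd Ω)
    (hcen : ∀ H : ℝ → ℝ, ContDiff ℝ 1 H → (∀ c ∈ Icc (-1 : ℝ) 1, 0 < H c) → ∃ q ∈ Ω,
      (∀ x ∈ closure Ω, 0 < ⟪(q : E (n + 1)), (x : E (n + 1))⟫) ∧
      ∀ v : E (n + 1), ⟪(q : E (n + 1)), v⟫ = 0 →
        ∫ x in frontier Ω, H ⟪(q : E (n + 1)), (x : E (n + 1))⟫ * ⟪v, (x : E (n + 1))⟫ ∂bs n =
          0) (hV : sg (n + 1) Ω ≤ sg (n + 1) (gball (nor n) (Real.pi / 4)))
    {R : ℝ} (h0 : Real.pi / 4 < R)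
    (h1 : R < Real.pi / 2) (hR : bs n (frontier Ω) = bs n (gsph (nor n) R)) :
    sigma1 Ω < gS (n - 1) R / (cst n).toReal := by
  have hn2 : 2 ≤ n := by omega
  have hN : 2 ≤ n - 1 := by omega
  have hpi := Real.pi_pos
  have hR0 : 0 < R := by linarith
  obtain ⟨m, κ, r₀, H, X, P, hX, hFX, hR2⟩ := exists_prof_quarter hN
  have hgR := hR2 R ⟨h0, h1⟩
  obtain ⟨q, hqΩ, hq, hint'⟩ := hcen H P.contDiff P.pos
  obtain ⟨Φ, hΦ⟩ := exists_act q (nor n)
  have hoΦ : nor n ∈ act Φ '' Ω := ⟨q, hqΩ, hΦ⟩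
  have hint : ∀ i : Fin n, ∫ p in frontier (act Φ '' Ω), uH H i (p : E (n + 1)) ∂bs n = 0 :=
    move_int hint' hΦ
  have hd : Dh (act Φ '' Ω) := dh_move h hq hΦ
  set W : Set (Sp n) := act Φ '' Ω with hW
  have hbs : bs n (frontier W) = bs n (gsph (nor n) R) := by
    rw [hW, ← act_frontier, bs_act_image, hR]
  have hc := cst_toReal_pos hn2
  have hA := bs_toReal_of_eq hn2 hR0 (by linarith) hbs
  have hvol : (sg (n + 1) W).toReal ≤ VS (n - 1) (Real.pi / 4) * (sg n univ).toReal := by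
    rw [← sg_gball_toReal hn2 (nor n) (by linarith) (by linarith)]
    exact ENNReal.toReal_mono (measure_ne_top _ _) (by rw [hW, sg_act_image]; exact hV)
  have hfin : bs n (frontier W) < ∞ := bs_frontier_lt_top hn2 hd
  have hup := sigma1_mul_le hn2 hfin P.contDiff hint
  have hst := star hn2 hd hoΦ P
  have hI := integral_Fp_pos hn2 hd hoΦ P.contDiff P.pos
  have hκ : 0 ≤ κ * (VS (n - 1) (Real.pi / 4) * (sg n univ).toReal - (sg (n + 1) W).toReal) :=
    mul_nonneg P.kap_nonneg (by linarith)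
  have hsig : sigma1 W = sigma1 Ω := sigma1_act Φ Ω
  rw [hsig] at hup
  set I := ∫ p in frontier W, Fp H (rad p) ^ 2 ∂bs n with hIdef
  set c := (cst n).toReal with hcdef
  set ω := (sg n univ).toReal with hωdef
  set A := (bs n (frontier W)).toReal with hAdef
  have hsR : 0 < Real.sin R := Real.sin_pos_of_pos_of_lt_pi hR0 (by linarith)
  have hIX : I ≤ X * A := by
    have hfin' : IsFiniteMeasure ((bs n).restrict (frontier W)) := ⟨by simpa using hfin⟩
    have h2 : I ≤ ∫ _p in frontier W, X ∂bs n := by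
      refine setIntegral_mono_on ?_ ?_ isClosed_frontier.measurableSet ?_
      · refine Integrable.of_bound (C := X)
          (((continuous_Fp P.contDiff).comp continuous_rad).pow 2).aestronglyMeasurable ?_
        rw [ae_restrict_iff' isClosed_frontier.measurableSet]
        refine Filter.Eventually.of_forall fun p hp => ?_
        rw [Real.norm_eq_abs, abs_of_nonneg (sq_nonneg _)]
        exact hFX _ ⟨rad_nonneg p,
          (rad_lt_of_mem_closure hd hoΦ (frontier_subset_closure hp)).le⟩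
      · exact integrable_const _
      · intro p hp
        exact hFX _ ⟨rad_nonneg p,
          (rad_lt_of_mem_closure hd hoΦ (frontier_subset_closure hp)).le⟩
    rw [setIntegral_const, smul_eq_mul] at h2
    have h3 : (bs n).real (frontier W) = A := rfl
    rw [h3] at h2
    linarith
  -- the quantity `δ = 1 - (s₁/s_R)^N`
  set δ := 1 - (Real.sin (Real.pi / 4) / Real.sin R) ^ (n - 1) with hδ
  have hs1 : 0 < Real.sin (Real.pi / 4) := Real.sin_pos_of_pos_of_lt_pi (by linarith) (by linarith)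
  have hs1R : Real.sin (Real.pi / 4) < Real.sin R :=
    Real.sin_lt_sin_of_lt_of_le_pi_div_two (by linarith) h1.le h0
  have hδ0 : 0 ≤ δ := by
    have : (Real.sin (Real.pi / 4) / Real.sin R) ^ (n - 1) ≤ 1 :=
      pow_le_one₀ (by positivity) (by rw [div_le_one hsR]; exact hs1R.le)
    linarith
  have e1 : A / c - Real.sin (Real.pi / 4) ^ (n - 1) * ω = A / c * δ := by
    rw [hδ, hA, div_pow]
    field_simp
  rw [e1] at hst
  have hAI : I / X ≤ A := by
    rw [div_le_iff₀ hX]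
    linarith
  have h2 : m * (I / X / c * δ) ≤ m * (A / c * δ) := by
    have := P.m_pos
    gcongr
  have h3 : sigma1 Ω * I ≤ (gS (n - 1) (Real.pi / 4) - m * δ / X) / c * I := by
    have e2 : (gS (n - 1) (Real.pi / 4) - m * δ / X) / c * I =
        gS (n - 1) (Real.pi / 4) * I / c - m * (I / X / c * δ) := by
      field_simp
    rw [e2]
    linarith
  have h4 : sigma1 Ω ≤ (gS (n - 1) (Real.pi / 4) - m * δ / X) / c :=
    le_of_mul_le_mul_right h3 hI
  refine h4.trans_lt ?_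
  have h5 : gS (n - 1) (Real.pi / 4) - m * δ / X < gS (n - 1) R := by
    have h6 : gS (n - 1) (Real.pi / 4) - gS (n - 1) R < m * δ / X := by
      rw [lt_div_iff₀ hX]
      exact hgR
    linarith
  gcongr

theorem finish (hn : 3 ≤ n) {Ω : Set (Sp n)} (h : Hd Ω) {w : Sp n}
    (hw : ∀ p ∈ closure Ω, 0 < ⟪(w : E (n + 1)), (p : E (n + 1))⟫) {R : ℝ} (hR0 : 0 < R)
    (hR1 : R < Real.pi / 2) (hR : ∀ p : Sp n, bs n (gsph p R) = bs n (frontier Ω))
    (hs : sigma1 Ω ≤ gS (n - 1) R / (cst n).toReal)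
    (heq : gS (n - 1) R / (cst n).toReal ≤ sigma1 Ω → ∃ q, Ω = gball q R) : Weinstock Ω := by
  have hn2 : 2 ≤ n := by omega
  have hn1 : 1 ≤ n := by omega
  have hpi := Real.pi_pos
  have hpos := h.bs_pos hn2
  have hfin := h.bs_lt_top hn2
  have hcst := cst_toReal_pos hn2
  have hne := h.nonempty
  have hRf : ∀ p : Sp n, bs n (frontier (gball p R)) = bs n (frontier Ω) := fun p => by
    rw [frontier_gball hn1 p hR0 (by linarith), hR p]
  have hball : ∀ p : Sp n, gS (n - 1) R / (cst n).toReal ≤ sigma1 (gball p R) := fun p => by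
    rw [sigma1_gball p (nor n) R]
    exact le_sigma1_ball hn2 hR0 hR1
  refine ⟨hpos, hfin, fun p => ?_, rayleigh_nonempty hn2 hpos hfin, R, ⟨hR0, hR1⟩, hRf,
    fun p S hS hSe => ?_, fun p => ⟨?_, (div_pos (gS_pos (by omega) hR0 hR1) hcst).trans_le
      (hball p)⟩, fun p => hs.trans (hball p), fun p => ⟨fun he => ?_, ?_⟩⟩
  · rw [frontier_gball hn1 p (by linarith) (by linarith), ← hR (nor n)]
    exact bs_gsph_strictMono hn2 (nor n) p hR0 hR1 le_rfl
  · refine radius_unique hn2 ⟨hR0, hR1⟩ hS (p := p) (q := p) ?_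
    rw [hR p, ← hSe, frontier_gball hn1 p hS.1 (by linarith [hS.2])]
  · rw [rayleigh_gball p (nor n) R]
    exact rayleigh_ball_nonempty hn2 hR0 hR1
  · obtain ⟨q, hq⟩ := heq ((hball p).trans he.ge)
    exact ⟨q, R, hq⟩
  · rintro ⟨q, S, hS⟩
    rw [gball_arccos] at hS
    obtain ⟨T, hT⟩ : ∃ T : ℝ, T = Real.arccos (Real.cos S) := ⟨_, rfl⟩
    rw [← hT] at hS
    have hT0 : 0 ≤ T := hT ▸ Real.arccos_nonneg _
    have hT1 : T ≤ Real.pi := hT ▸ Real.arccos_le_pi _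
    have hTpos : 0 < T := by
      rcases hT0.eq_or_lt with h5 | h5
      · rw [← h5, gball_zero] at hS
        rw [hS] at hne
        exact absurd hne not_nonempty_empty
      · exact h5
    have hT2 : T < Real.pi / 2 := lt_of_hemi hn1 q w hT1 (by rw [← hS]; exact hw)
    have hTR : T = R := by
      refine radius_unique hn2 ⟨hR0, hR1⟩ ⟨hTpos, hT2⟩ (p := q) (q := q) ?_
      rw [hR q, hS, frontier_gball hn1 q hTpos (by linarith)]
    rw [hS, hTR]
    exact sigma1_gball q p R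

/-- the Weinstock inequality for convex domains with symmetries -/
theorem main_gen (hn : 3 ≤ n) {Ω : Set (Sp n)} (hΩ : IsOpen Ω) (hne : Ω.Nonempty)
    (hc : GConvex Ω)
    (hw : ∃ w : Sp n, ∀ p ∈ closure Ω, 0 < ⟪(w : E (n + 1)), (p : E (n + 1))⟫)
    {G : Set (E (n + 1) ≃ₗᵢ[ℝ] E (n + 1))} (hG : ∀ Φ ∈ G, act Φ '' Ω = Ω)
    (hfix : (∃ o : E (n + 1), ∀ v : E (n + 1), (∀ Φ ∈ G, Φ v = v) → ∃ t : ℝ, v = t • o) ∨
      ∀ q ∈ Ω, (∀ Φ ∈ G, Φ (q : E (n + 1)) = q) → ∀ x ∈ closure Ω,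
        0 < ⟪(q : E (n + 1)), (x : E (n + 1))⟫)
    (hs : bs n (frontier Ω) ≤ bs n (gsph (nor n) (Real.pi / 4)) ∨
      sg (n + 1) Ω ≤ sg (n + 1) (gball (nor n) (Real.pi / 4))) : Weinstock Ω := by
  have hn2 : 2 ≤ n := by omega
  have hpi := Real.pi_pos
  obtain ⟨w, hw⟩ := hw
  have hpole : ∃ w : E (n + 1), ∀ x ∈ closure Ω, 0 < ⟪(x : E (n + 1)), w⟫ :=
    ⟨w, fun x hx => by rw [real_inner_comm]; exact hw x hx⟩
  have h : Hd Ω := ⟨hΩ, hne, Pool.Agent.H32.SV.convex_cn_of_hemi hc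
    (hpole.imp fun _ h1 x hx => h1 x (subset_closure hx)), hpole⟩
  have hq : ∀ q ∈ Ω, (∀ Φ ∈ G, Φ (q : E (n + 1)) = q) → ∀ x ∈ closure Ω,
      0 < ⟪(q : E (n + 1)), (x : E (n + 1))⟫ := by
    rcases hfix with ⟨o, ho⟩ | hfix
    · exact fun q hq hqG x hx => hemi_of_line h hG ho hq hqG hx
    · exact hfix
  have hcen : ∀ H : ℝ → ℝ, ContDiff ℝ 1 H → (∀ c ∈ Icc (-1 : ℝ) 1, 0 < H c) → ∃ q ∈ Ω,
      (∀ x ∈ closure Ω, 0 < ⟪(q : E (n + 1)), (x : E (n + 1))⟫) ∧
      ∀ v : E (n + 1), ⟪(q : E (n + 1)), v⟫ = 0 →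
        ∫ x in frontier Ω, H ⟪(q : E (n + 1)), (x : E (n + 1))⟫ * ⟪v, (x : E (n + 1))⟫ ∂bs n =
          0 := by
    intro H hH hp
    obtain ⟨o, hoΩ, hoG, hint⟩ := exists_center_G hn2 h hG hq hH hp
    exact ⟨o, hoΩ, hq o hoΩ hoG, hint⟩
  obtain ⟨R, hR0, hR1, hR⟩ := h.radius hn2
  rcases le_or_gt R (Real.pi / 4) with h4 | h4
  · obtain ⟨h5, h6⟩ := case_sym hn h hcen hR0 h4 (hR (nor n)).symm
    exact finish hn h hw hR0 hR1 hR h5 h6
  · have hV : sg (n + 1) Ω ≤ sg (n + 1) (gball (nor n) (Real.pi / 4)) := by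
      refine hs.resolve_left fun h5 => ?_
      rw [← hR (nor n)] at h5
      exact absurd (bs_gsph_strictMono hn2 (nor n) (nor n) (by linarith) h4 hR1.le) (not_lt.2 h5)
    have h5 := case_sym_large hn h hcen hV h4 hR1 (hR (nor n)).symm
    exact finish hn h hw hR0 hR1 hR h5.le (fun h6 => absurd h5 (not_lt.2 h6))

end Pool.Agent.H62.SY
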