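import Pool.Agent.H62.SS.ActC
import Pool.Agent.H62.SS.SigInvS
import Pool.Agent.H62.SY.DomH

set_option autoImplicit false

/-!
# [H62 SY POLE] Symmetric domains: the pole and the centre

`W = {w | ⟪w,x⟫ ≥ 1 on closure Ω}` is closed and convex; its least norm element is fixed by the isometries, so it is a multiple of `o`.  The centroid of `Ω` is fixed, too, and lies in the same open ray, so the direction is in `Ω` (`Hd` separation).
-/

namespace Pool.Agent.H62.SY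

open scoped RealInnerProductSpace MeasureTheory ENNReal NNReal
open MeasureTheory Set Metric
open Pool.Agent.H62.WS (E sg cst)
open Pool.Agent.H62.SS
open Pool.Agent.H32.SV (Hd)

variable {n : ℕ}

/-- a vector with `⟪v, Φ v⟫ ≥ ‖v‖²` is fixed -/
theorem fixed_of_inner (Φ : E (n + 1) ≃ₗᵢ[ℝ] E (n + 1)) {v : E (n + 1)}
    (h : ‖v‖ ^ 2 ≤ ⟪v, Φ.symm v⟫) : Φ v = v := by
  have h1 : ‖v - Φ.symm v‖ ^ 2 ≤ 0 := by
    rw [@norm_sub_sq_real, LinearIsometryEquiv.norm_map]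
    linarith
  have h2 : v - Φ.symm v = 0 := by
    rw [← norm_eq_zero]
    nlinarith [norm_nonneg (v - Φ.symm v)]
  have h3 : v = Φ.symm v := sub_eq_zero.1 h2
  conv_lhs => rw [h3]
  exact Φ.apply_symm_apply v

/-- a closed convex set that is invariant under the isometries contains a fixed vector -/
theorem exists_fixed_mem {P : Set (E (n + 1))} (hne : P.Nonempty) (hcl : IsClosed P)
    (hc : Convex ℝ P) {G : Set (E (n + 1) ≃ₗᵢ[ℝ] E (n + 1))}
    (hG : ∀ Φ ∈ G, ∀ v ∈ P, Φ.symm v ∈ P) : ∃ v ∈ P, ∀ Φ ∈ G, Φ v = v := by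
  obtain ⟨v, hv, hmin⟩ := exists_norm_eq_iInf_of_complete_convex hne hcl.isComplete hc 0
  have hmin2 := (norm_eq_iInf_iff_real_inner_le_zero hc hv).1 hmin
  refine ⟨v, hv, fun Φ hΦ => ?_⟩
  apply fixed_of_inner
  have h2 := hmin2 _ (hG Φ hΦ v hv)
  rw [zero_sub, inner_neg_left, inner_sub_right, real_inner_self_eq_norm_sq] at h2
  linarith

theorem inner_symm (Φ : E (n + 1) ≃ₗᵢ[ℝ] E (n + 1)) (v x : E (n + 1)) :
    ⟪Φ.symm v, x⟫ = ⟪v, Φ x⟫ := by
  rw [← Φ.inner_map_map (Φ.symm v), Φ.apply_symm_apply]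

/-- the least norm pole is fixed -/
theorem exists_fixed_pole {K : Set (Sp n)} (hK : IsCompact K) (hne : K.Nonempty)
    (hw : ∃ w : E (n + 1), ∀ x ∈ K, 0 < ⟪w, (x : E (n + 1))⟫)
    {G : Set (E (n + 1) ≃ₗᵢ[ℝ] E (n + 1))} (hG : ∀ Φ ∈ G, ∀ x ∈ K, act Φ x ∈ K) :
    ∃ w : E (n + 1), (∀ x ∈ K, 0 < ⟪w, (x : E (n + 1))⟫) ∧ ∀ Φ ∈ G, Φ w = w := by
  obtain ⟨w, hw⟩ := hw
  let P : Set (E (n + 1)) := {v | ∀ x ∈ K, 1 ≤ ⟪v, (x : E (n + 1))⟫}
  have hPne : P.Nonempty := by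
    obtain ⟨x0, hx0, hmin⟩ := hK.exists_isMinOn hne
      (f := fun x : Sp n => ⟪w, (x : E (n + 1))⟫)
      (continuous_const.inner continuous_subtype_val).continuousOn
    have h0 := hw x0 hx0
    refine ⟨(⟪w, (x0 : E (n + 1))⟫)⁻¹ • w, fun x hx => ?_⟩
    rw [real_inner_smul_left]
    have h1 : ⟪w, (x0 : E (n + 1))⟫ ≤ ⟪w, (x : E (n + 1))⟫ := hmin hx
    rw [inv_mul_eq_div, le_div_iff₀ h0]
    linarith
  have hPc : Convex ℝ P := by
    intro a ha b hb s t hs ht hst x hx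
    rw [inner_add_left, real_inner_smul_left, real_inner_smul_left]
    nlinarith [ha x hx, hb x hx]
  have hPcl : IsClosed P := by
    have : P = ⋂ x ∈ K, {v : E (n + 1) | 1 ≤ ⟪v, (x : E (n + 1))⟫} := by
      ext v
      simp [P]
    rw [this]
    exact isClosed_biInter fun x _ =>
      isClosed_le continuous_const (continuous_id.inner continuous_const)
  obtain ⟨v, hv, hmin⟩ := exists_norm_eq_iInf_of_complete_convex hPne hPcl.isComplete hPc 0
  have hmin2 := (norm_eq_iInf_iff_real_inner_le_zero hPc hv).1 hmin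
  refine ⟨v, fun x hx => lt_of_lt_of_le one_pos (hv x hx), fun Φ hΦ => ?_⟩
  apply fixed_of_inner
  have h1 : Φ.symm v ∈ P := by
    intro x hx
    have h2 := hv _ (hG Φ hΦ x hx)
    rw [act_coe] at h2
    have h3 : ⟪Φ.symm v, (x : E (n + 1))⟫ = ⟪v, Φ (x : E (n + 1))⟫ := by
      rw [← Φ.inner_map_map (Φ.symm v), Φ.apply_symm_apply]
    rw [h3]
    exact h2
  have h2 := hmin2 _ h1
  rw [zero_sub, inner_neg_left, inner_sub_right, real_inner_self_eq_norm_sq] at h2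
  linarith

/-- an invariant integral -/
theorem integral_vec {μ : Measure (Sp n)} {A : Set (Sp n)} (hfin : μ A < ∞)
    {G : Set (E (n + 1) ≃ₗᵢ[ℝ] E (n + 1))}
    (hinv : ∀ Φ ∈ G, ∀ u : Sp n → ℝ, ∫ x in A, u (act Φ x) ∂μ = ∫ x in A, u x ∂μ)
    {g : Sp n → ℝ} (hg : Continuous g) (hgG : ∀ Φ ∈ G, ∀ x, g (act Φ x) = g x) :
    ∃ c : E (n + 1), (∀ Φ ∈ G, Φ c = c) ∧
      ∀ v : E (n + 1), ∫ x in A, g x * ⟪v, (x : E (n + 1))⟫ ∂μ = ⟪v, c⟫ := by
  have hfm : IsFiniteMeasure (μ.restrict A) := ⟨by rwa [Measure.restrict_apply_univ]⟩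
  let f : Sp n → E (n + 1) := fun x => g x • (x : E (n + 1))
  have hfc : Continuous f := hg.smul continuous_subtype_val
  have hfi : Integrable f (μ.restrict A) :=
    hfc.integrable_of_hasCompactSupport (HasCompactSupport.of_compactSpace _)
  obtain ⟨c, hc⟩ : ∃ c : E (n + 1), c = ∫ x in A, f x ∂μ := ⟨_, rfl⟩
  have hcv : ∀ v : E (n + 1), ∫ x in A, g x * ⟪v, (x : E (n + 1))⟫ ∂μ = ⟪v, c⟫ := by
    intro v
    rw [hc, ← integral_inner hfi v]
    refine integral_congr_ae (Filter.Eventually.of_forall fun x => ?_)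
    simp only [f, real_inner_smul_right]
  refine ⟨c, fun Φ hΦ => ?_, hcv⟩
  apply fixed_of_inner
  rw [← real_inner_self_eq_norm_sq, ← hcv c, real_inner_comm, ← hcv (Φ.symm c),
    ← hinv Φ hΦ (fun x => g x * ⟪c, (x : E (n + 1))⟫)]
  refine le_of_eq (integral_congr_ae (Filter.Eventually.of_forall fun x => ?_))
  simp only []
  rw [hgG Φ hΦ, act_coe, inner_symm]

end Pool.Agent.H62.SY
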